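import Pool.Agent.Lib.MP_feb729_gt.Defs

/-! The diagram of the torus link `T(3,3)` with one component reversed and its Lee complex. -/

namespace Pool.Agent.Lib.MP_feb729_gt

/-- Decoding of passages. -/
def ofIdx (k : ℕ) : Fin 6 × Bool := (⟨(k / 2) % 6, Nat.mod_lt _ (by decide)⟩, k % 2 == 1)

/-- Encoding of passages. -/
def idx (e : Fin 6 × Bool) : ℕ := 2 * e.1.val + e.2.toNat

/-- The next passage. -/
def nxt (e : Fin 6 × Bool) : Fin 6 × Bool :=
  ofIdx ([10, 3, 4, 6, 9, 0, 8, 5, 1, 11, 7, 2].getD (idx e) 0)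

/-- The previous passage. -/
def prv (e : Fin 6 × Bool) : Fin 6 × Bool :=
  ofIdx ([5, 8, 11, 1, 2, 7, 3, 10, 6, 4, 0, 9].getD (idx e) 0)

/-- The diagram. -/
def D0 : Diagram 6 where
  next := ⟨nxt, prv, by decide, by decide⟩
  pos := ![false, true, false, false, true, false]

/-- Encoding of resolutions. -/
def enc (v : Fin 6 → Bool) : ℕ :=
  (v 0).toNat + 2 * (v 1).toNat + 4 * (v 2).toNat + 8 * (v 3).toNat + 16 * (v 4).toNat +
    32 * (v 5).toNat

/-- Table of circle numbers. -/
def clsT : ℕ := 11972105664094723528990171945093999808873732869075755718861521691426731895796108369085346589476632856746194958975976577291662914740567301358232387025385079382357633864972741572222379346185811768414540761058286552888924148058261620497881231022538007137131149035489332618474627314142398414320968403902693679676067587882423201785595314678923519652731510251145465755989335618996905975042510253277325055071625119983812387631351933032445041884785324953764497984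

/-- Table of representatives. -/
def secT : ℕ := 1339395977685223729801146287873708118385571580780340199884879786408351008640280019230350178359451434238576649987144838584043249474960894581426753898909209533278292830093682120893394991778349927264769205900642207755514116288366441327802185749505059357261119579677480389704285472078570446985709036241968

/-- Table of spanning trees. -/
def parT : ℕ := 215616502125082197415752098661724119869456182526053249318097204345090374766123968411537335051260305593556208206540912825459430325970729956072174027694629389425278250910194405529579159192272052442042209312156267782495000568910722382558464536348107970783160404320240717118526592791540321852016959640911698156905215610272796290266669395542266993585599036523456671473764720138246395459632164315545989094947220395175738121705628622737597747070630664949129314342609105409248121499103554508765099591368195136179157354208406330749463775639402380043295861666301454037588545085142138023103067598265145605926843811318923604716402606463950191612787656932824430051782140508452321212916218702649415439184906263348325748331467693613299989092384209528825211535187423480689987222609991193640880055290523542749303228369750709538473125414020572073552442433543382137979297217455354164381927579956521587422473571782693340293141297419758491414784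

/-- The number of the circle through an edge. -/
def cls (v : Fin 6 → Bool) (e : Fin 6 × Bool) : Fin 4 :=
  ⟨(clsT >>> (24 * enc v + 2 * idx e)) % 4, Nat.mod_lt _ (by decide)⟩

/-- A representative edge of a circle. -/
def sec (v : Fin 6 → Bool) (k : Fin 4) : Fin 6 × Bool :=
  ofIdx ((secT >>> (16 * enc v + 4 * k.val)) % 16)

/-- The parent of an edge in a spanning tree of its circle. -/
def par (v : Fin 6 → Bool) (e : Fin 6 × Bool) : Fin 6 × Bool :=
  ofIdx ((parT >>> (48 * enc v + 4 * idx e)) % 16)

instance (v : Fin 6 → Bool) (e f : Fin 6 × Bool) : Decidable (Join D0 v e f) := by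
  unfold Join
  infer_instance

theorem forall6 {P : (Fin 6 → Bool) → Prop}
    (h : ∀ a b c d e f : Bool, P ![a, b, c, d, e, f]) (v : Fin 6 → Bool) : P v := by
  have : v = ![v 0, v 1, v 2, v 3, v 4, v 5] := by
    funext i
    fin_cases i <;> rfl
  rw [this]
  exact h _ _ _ _ _ _

theorem forall4 {P : (Fin 4 → Bool) → Prop}
    (h : ∀ a b c d : Bool, P ![a, b, c, d]) (v : Fin 4 → Bool) : P v := by
  have : v = ![v 0, v 1, v 2, v 3] := by
    funext i
    fin_cases i <;> rfl
  rw [this]
  exact h _ _ _ _

theorem cls_join_aux : ∀ v : Fin 6 → Bool, ∀ (c : Fin 6) (b : Bool),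
    if v c = D0.pos c then
      cls v (prv (c, b)) = cls v (prv (c, !b)) ∧ cls v (c, b) = cls v (c, !b)
    else cls v (prv (c, b)) = cls v (c, !b) := by
  apply forall6
  decide +kernel

theorem cls_join (v : Fin 6 → Bool) (e f : Fin 6 × Bool) (h : Join D0 v e f) :
    cls v e = cls v f := by
  obtain ⟨c, b, h⟩ := h
  have := cls_join_aux v c b
  split_ifs at h this
  · rcases h with ⟨rfl, rfl⟩ | ⟨rfl, rfl⟩
    · exact this.1
    · exact this.2
  · obtain ⟨rfl, rfl⟩ := h
    exact this

theorem par_spec : ∀ v : Fin 6 → Bool, ∀ e : Fin 6 × Bool,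
    (par v e = e ∨ Join D0 v e (par v e) ∨ Join D0 v (par v e) e) ∧
      (par v)^[7] e = sec v (cls v e) := by
  apply forall6
  decide +kernel

theorem conn_sec (v : Fin 6 → Bool) (e : Fin 6 × Bool) : Conn D0 v e (sec v (cls v e)) := by
  have h : ∀ (k : ℕ) (e : Fin 6 × Bool), Conn D0 v e ((par v)^[k] e) := by
    intro k
    induction k with
    | zero => exact fun e => Relation.EqvGen.refl e
    | succ k ih =>
      intro e
      rw [Function.iterate_succ_apply]
      refine Relation.EqvGen.trans _ _ _ ?_ (ih (par v e))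
      rcases (par_spec v e).1 with h | h | h
      · rw [h]
        exact Relation.EqvGen.refl e
      · exact Relation.EqvGen.rel _ _ h
      · exact Relation.EqvGen.symm _ _ (Relation.EqvGen.rel _ _ h)
  rw [← (par_spec v e).2]
  exact h 7 e

theorem conn_iff (v : Fin 6 → Bool) (e f : Fin 6 × Bool) :
    Conn D0 v e f ↔ cls v e = cls v f := by
  constructor
  · intro h
    induction h with
    | rel a b h => exact cls_join v a b h
    | refl a => rfl
    | symm a b _ ih => exact ih.symm
    | trans a b c _ _ ih1 ih2 => exact ih1.trans ih2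
  · intro h
    have h1 := conn_sec v e
    have h2 := conn_sec v f
    rw [← h] at h2
    exact Relation.EqvGen.trans _ _ _ h1 (Relation.EqvGen.symm _ _ h2)

/-- Computable count of circles. -/
def circB (v : Fin 6 → Bool) (P : Fin 6 × Bool → Bool) : ℕ :=
  (Finset.univ.filter fun k : Fin 4 => ∃ e, P e = true ∧ cls v e = k).card

theorem circles_eq (v : Fin 6 → Bool) (S : Set (Fin 6 × Bool)) (P : Fin 6 × Bool → Bool)
    (h : ∀ e, e ∈ S ↔ P e = true) : circles D0 v S = circB v P := by
  have e1 : {C : Set (Fin 6 × Bool) | ∃ e ∈ S, C = {f | Conn D0 v e f}} =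
      (fun k : Fin 4 => {f | k = cls v f}) ''
        (Finset.univ.filter fun k : Fin 4 => ∃ e, P e = true ∧ cls v e = k : Finset (Fin 4)) := by
    ext C
    simp only [Set.mem_setOf_eq, conn_iff, Finset.coe_filter, Finset.mem_univ, true_and,
      Set.mem_image, h]
    constructor
    · rintro ⟨e, he, rfl⟩
      exact ⟨cls v e, ⟨e, he, rfl⟩, rfl⟩
    · rintro ⟨k, ⟨e, he, rfl⟩, rfl⟩
      exact ⟨e, he, rfl⟩
  rw [circles, e1, Set.InjOn.ncard_image, Set.ncard_coe_finset, circB]
  intro k hk k' _ hkk
  simp only [Finset.coe_filter, Finset.mem_univ, true_and, Set.mem_setOf_eq] at hk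
  obtain ⟨e, -, rfl⟩ := hk
  have : e ∈ {f | cls v e = cls v f} := rfl
  simp only at hkk
  rw [hkk] at this
  exact this.symm

/-- The generator with given labels of the circles. -/
def mk (v : Fin 6 → Bool) (μ : Fin 4 → Bool) : Gen D0 :=
  ⟨(v, fun e => μ (cls v e)), fun e f h => by simp only [(conn_iff v e f).1 h]⟩

theorem forall_gen {P : Gen D0 → Prop} (h : ∀ v μ, P (mk v μ)) (g : Gen D0) : P g := by
  have : g = mk g.1.1 fun k => g.1.2 (sec g.1.1 k) := by
    apply Subtype.ext
    refine Prod.ext rfl ?_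
    funext e
    exact g.2 _ _ (conn_sec g.1.1 e)
  rw [this]
  exact h _ _

/-- Computable quantum degree. -/
def qB (v : Fin 6 → Bool) (μ : Fin 4 → Bool) : ℤ :=
  (circB v fun e => μ (cls v e) : ℤ) - circB v (fun e => !μ (cls v e)) +
    (Finset.univ.filter fun c => v c = true).card - 6

theorem qdeg_mk (v : Fin 6 → Bool) (μ : Fin 4 → Bool) : qdeg D0 (mk v μ) = qB v μ := by
  have h1 : (Finset.univ.filter fun c => D0.pos c = true).card = 2 := by decide
  have h2 : (Finset.univ.filter fun c => D0.pos c = false).card = 4 := by decide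
  have h3 := circles_eq v {e | μ (cls v e) = true} (fun e => μ (cls v e)) fun e => Iff.rfl
  have h4 := circles_eq v {e | μ (cls v e) = false} (fun e => !μ (cls v e)) fun e => by simp
  rw [qdeg, h1, h2, qB, ← h3, ← h4]
  simp only [mk]
  push_cast
  ring

/-- Computable incidence. -/
def IncB (v : Fin 6 → Bool) (μ : Fin 4 → Bool) (w : Fin 6 → Bool) (ν : Fin 4 → Bool) (c : Fin 6) :
    Prop :=
  v c = false ∧ w = Function.update v c true ∧
    (∀ e, cls v e ≠ cls v (prv (c, true)) → cls v e ≠ cls v (c, true) →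
      ν (cls w e) = μ (cls v e)) ∧
    (cls v (prv (c, true)) = cls v (c, true) →
      μ (cls v (c, true)) = xor (ν (cls w (prv (c, true)))) (ν (cls w (c, true)))) ∧
    (cls v (prv (c, true)) ≠ cls v (c, true) →
      ν (cls w (c, true)) = (μ (cls v (prv (c, true))) == μ (cls v (c, true))))

instance (v : Fin 6 → Bool) (μ : Fin 4 → Bool) (w : Fin 6 → Bool) (ν : Fin 4 → Bool) (c : Fin 6) :
    Decidable (IncB v μ w ν c) := by
  unfold IncB
  infer_instance

theorem inc_mk (v : Fin 6 → Bool) (μ : Fin 4 → Bool) (w : Fin 6 → Bool) (ν : Fin 4 → Bool)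
    (c : Fin 6) : Inc D0 (mk v μ) (mk w ν) c ↔ IncB v μ w ν c := by
  simp only [Inc, IncB, conn_iff, mk]
  rfl

/-- Computable matrix of the differential. -/
def dB (v : Fin 6 → Bool) (μ : Fin 4 → Bool) (w : Fin 6 → Bool) (ν : Fin 4 → Bool) : ℤ :=
  ∑ c, if IncB v μ w ν c then
    (-1) ^ (Finset.univ.filter fun c' => c' < c ∧ v c' = true).card else 0

open Classical in
/-- The matrix of the differential. -/
noncomputable def dmat (g h : Gen D0) : ℚ :=
  ∑ c, if Inc D0 g h c then (-1) ^ (Finset.univ.filter fun c' => c' < c ∧ g.1.1 c' = true).card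
    else 0

theorem dmat_mk (v : Fin 6 → Bool) (μ : Fin 4 → Bool) (w : Fin 6 → Bool) (ν : Fin 4 → Bool) :
    dmat (mk v μ) (mk w ν) = dB v μ w ν := by
  rw [dmat, dB]
  push_cast
  refine Finset.sum_congr rfl fun c _ => ?_
  by_cases h : IncB v μ w ν c
  · rw [if_pos h, if_pos ((inc_mk v μ w ν c).2 h)]
    rfl
  · rw [if_neg h, if_neg fun h' => h ((inc_mk v μ w ν c).1 h')]

noncomputable instance : Fintype (Gen D0) := by
  unfold Gen
  exact Fintype.ofFinite _

theorem leeD_eq (y : Gen D0 → ℚ) (h : Gen D0) : leeD D0 y h = ∑ g, dmat g h * y g := by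
  rw [leeD, finsum_eq_sum_of_fintype]
  refine Finset.sum_congr rfl fun g _ => ?_
  rw [dmat, Finset.sum_mul]
  refine Finset.sum_congr rfl fun c _ => ?_
  split_ifs <;> simp

/-- Sparse vectors. -/
abbrev Sp : Type := List ((Fin 6 → Bool) × (Fin 4 → Bool) × ℤ)

theorem upper_bound (Φ : Sp) (z : Gen D0 → ℚ) (zB : (Fin 6 → Bool) → (Fin 4 → Bool) → ℤ)
    (hz : ∀ v μ, z (mk v μ) = zB v μ) (j : ℤ) (h1 : ∀ t ∈ Φ, qB t.1 t.2.1 ≤ j)
    (h2 : ∀ v μ, (Φ.map fun t => t.2.2 * dB v μ t.1 t.2.1).sum = 0)
    (h3 : (Φ.map fun t => t.2.2 * zB t.1 t.2.1).sum ≠ 0) (i : ℤ) (y : Gen D0 → ℚ)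
    (hy : ∀ g, qdeg D0 g < i → z g + leeD D0 y g = 0) : i ≤ j := by
  by_contra hij
  have key : ∀ Ψ : Sp, (∀ t ∈ Ψ, qB t.1 t.2.1 ≤ j) →
      (((Ψ.map fun t => t.2.2 * zB t.1 t.2.1).sum : ℤ) : ℚ) +
        ∑ g, (Ψ.map fun t => (t.2.2 : ℚ) * dmat g (mk t.1 t.2.1)).sum * y g = 0 := by
    intro Ψ hΨ
    induction Ψ with
    | nil => simp
    | cons t Ψ ih =>
      have a1 := hy (mk t.1 t.2.1) (by
        rw [qdeg_mk]
        have := hΨ t (by simp)
        omega)
      rw [leeD_eq, hz] at a1
      have a2 := ih fun s hs => hΨ s (by simp [hs])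
      simp only [List.map_cons, List.sum_cons, add_mul, Finset.sum_add_distrib, mul_assoc,
        ← Finset.mul_sum]
      push_cast at a2 ⊢
      linear_combination (t.2.2 : ℚ) * a1 + a2
  have h4 : ∀ g, (Φ.map fun t => (t.2.2 : ℚ) * dmat g (mk t.1 t.2.1)).sum = 0 := by
    apply forall_gen
    intro v μ
    have := congrArg (Int.cast (R := ℚ)) (h2 v μ)
    simp only [dmat_mk]
    push_cast at this
    simpa [List.map_map, Function.comp_def] using this
  have := key Φ h1
  simp only [h4, zero_mul, Finset.sum_const_zero, add_zero] at this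
  exact h3 (by exact_mod_cast this)

theorem lower_bound (Y : Sp) (z : Gen D0 → ℚ) (zB : (Fin 6 → Bool) → (Fin 4 → Bool) → ℤ)
    (hz : ∀ v μ, z (mk v μ) = zB v μ) (j : ℤ)
    (h : ∀ v μ, qB v μ < j → zB v μ + (Y.map fun t => t.2.2 * dB t.1 t.2.1 v μ).sum = 0) :
    ∃ y : Gen D0 → ℚ, ∀ g, qdeg D0 g < j → z g + leeD D0 y g = 0 := by
  classical
  refine ⟨fun g => (Y.map fun t => if g = mk t.1 t.2.1 then (t.2.2 : ℚ) else 0).sum, ?_⟩
  have key : ∀ (Z : Sp) (h : Gen D0),
      ∑ g, dmat g h * (Z.map fun t => if g = mk t.1 t.2.1 then (t.2.2 : ℚ) else 0).sum =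
        (Z.map fun t => (t.2.2 : ℚ) * dmat (mk t.1 t.2.1) h).sum := by
    intro Z h
    induction Z with
    | nil => simp
    | cons t Z ih =>
      simp only [List.map_cons, List.sum_cons, mul_add, Finset.sum_add_distrib, ih]
      simp [mul_comm]
  apply forall_gen
  intro v μ hq
  rw [qdeg_mk] at hq
  have := congrArg (Int.cast (R := ℚ)) (h v μ hq)
  rw [leeD_eq, key, hz]
  simp only [dmat_mk]
  push_cast at this
  simpa [List.map_map, Function.comp_def] using this

/-- The oriented resolution. -/
def vo : Fin 6 → Bool := ![true, false, true, true, false, true]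

/-- The labelling of the Seifert circles. -/
def lab (e : Fin 6 × Bool) : Bool := cls vo e != 0

/-- Computable canonical cycle. -/
def canB (l : Fin 6 × Bool → Bool) (v : Fin 6 → Bool) (μ : Fin 4 → Bool) : ℤ :=
  if v = vo then (-1) ^ circB v fun e => !l e && !μ (cls v e) else 0

theorem vo_eq : (fun c => !D0.pos c) = vo := by decide

theorem canon_mk (l : Fin 6 × Bool → Bool) (v : Fin 6 → Bool) (μ : Fin 4 → Bool) :
    canon D0 l (mk v μ) = canB l v μ := by
  rw [canon, canB, vo_eq, circles_eq _ _ (fun e => !l e && !μ (cls v e)) fun e => by simp [mk]]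
  simp only [mk]
  split_ifs <;> simp

/-- Dual cocycle for the sum. -/
def phiP : Sp :=
  [(![true, true, false, true, true, false], ![false, true, false, false], 1),
   (![false, true, false, true, true, true], ![false, true, false, false], -1),
   (![false, true, false, true, true, true], ![true, false, false, false], 1),
   (![false, true, true, false, true, true], ![false, true, false, false], 1),
   (![false, true, true, false, true, true], ![true, false, false, false], -1),
   (![false, true, true, true, false, true], ![false, false, true, false], -1),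
   (![false, true, true, true, false, true], ![true, false, false, false], 1),
   (![true, false, true, true, false, true], ![false, false, true, false], 1),
   (![true, false, true, true, false, true], ![true, false, false, false], -1),
   (![true, true, false, true, false, true], ![false, false, true, false], -1),
   (![true, true, false, true, false, true], ![false, true, false, false], 1),
   (![true, true, false, true, true, false], ![false, false, true, false], -1)]

/-- Dual cocycle for the difference. -/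
def phiM : Sp :=
  [(![true, false, true, true, false, true], ![true, true, false, false], 1),
   (![true, false, true, true, false, true], ![false, false, false, false], -1),
   (![true, false, true, true, false, true], ![false, true, true, false], -1),
   (![true, false, true, true, false, true], ![true, false, true, false], 1)]

/-- Correcting chain for the difference. -/
def yM : Sp :=
  [(![false, false, false, true, true, true], ![false, false, false, false], -2),
   (![false, false, true, true, false, true], ![false, false, false, false], 2),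
   (![false, true, false, true, false, true], ![false, false, true, false], 2),
   (![false, true, false, true, false, true], ![true, false, false, false], -2)]

theorem phiP_cocycle : ∀ v μ, (phiP.map fun t => t.2.2 * dB v μ t.1 t.2.1).sum = 0 := by
  apply forall6
  intro a b c d e f
  apply forall4
  revert a b c d e f
  decide +kernel

theorem phiM_cocycle : ∀ v μ, (phiM.map fun t => t.2.2 * dB v μ t.1 t.2.1).sum = 0 := by
  apply forall6
  intro a b c d e f
  apply forall4
  revert a b c d e f
  decide +kernel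

theorem lowP : ∀ v μ, qB v μ < -3 → (canB lab v μ + canB (fun e => !lab e) v μ) +
    (([] : Sp).map fun t => t.2.2 * dB t.1 t.2.1 v μ).sum = 0 := by
  apply forall6
  intro a b c d e f
  apply forall4
  revert a b c d e f
  decide +kernel

theorem lowM : ∀ v μ, qB v μ < -1 → (canB lab v μ - canB (fun e => !lab e) v μ) +
    (yM.map fun t => t.2.2 * dB t.1 t.2.1 v μ).sum = 0 := by
  apply forall6
  intro a b c d e f
  apply forall4
  revert a b c d e f
  decide +kernel

theorem filtP : IsFiltDeg D0 (canon D0 lab + canon D0 fun e => !lab e) (-3) := by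
  have hP : ∀ v μ, (canon D0 lab + canon D0 fun e => !lab e) (mk v μ) =
      ((canB lab v μ + canB (fun e => !lab e) v μ : ℤ) : ℚ) := by
    intro v μ
    simp [canon_mk]
  refine ⟨lower_bound [] _ _ hP _ lowP, ?_⟩
  rintro i ⟨y, hy⟩
  exact upper_bound phiP _ _ hP _ (by decide +kernel) phiP_cocycle (by decide +kernel) i y hy

theorem filtM : IsFiltDeg D0 (canon D0 lab - canon D0 fun e => !lab e) (-1) := by
  have hM : ∀ v μ, (canon D0 lab - canon D0 fun e => !lab e) (mk v μ) =
      ((canB lab v μ - canB (fun e => !lab e) v μ : ℤ) : ℚ) := by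
    intro v μ
    simp [canon_mk]
  refine ⟨lower_bound yM _ _ hM _ lowM, ?_⟩
  rintro i ⟨y, hy⟩
  exact upper_bound phiM _ _ hM _ (by decide +kernel) phiM_cocycle (by decide +kernel) i y hy

theorem filt_neg {z : Gen D0 → ℚ} {j : ℤ} (h : IsFiltDeg D0 z j) : IsFiltDeg D0 (-z) j := by
  have key : ∀ (z : Gen D0 → ℚ) (i : ℤ), (∃ y : Gen D0 → ℚ, ∀ g, qdeg D0 g < i →
      z g + leeD D0 y g = 0) → ∃ y : Gen D0 → ℚ, ∀ g, qdeg D0 g < i →
      (-z) g + leeD D0 y g = 0 := by
    rintro z i ⟨y, hy⟩
    refine ⟨-y, fun g hg => ?_⟩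
    have := hy g hg
    rw [leeD_eq] at this ⊢
    simp only [Pi.neg_apply, mul_neg, Finset.sum_neg_distrib]
    linarith
  refine ⟨key z j h.1, fun i hi => h.2 ?_⟩
  have := key (-z) i hi
  rwa [neg_neg] at this

theorem label_cases (l : Fin 6 × Bool → Bool) (h : IsLeeLabel D0 l) :
    l = lab ∨ l = fun e => !lab e := by
  obtain ⟨h1, h2⟩ := h
  rw [vo_eq] at h1
  obtain ⟨μ, rfl⟩ : ∃ μ : Fin 4 → Bool, l = fun e => μ (cls vo e) :=
    ⟨fun k => l (sec vo k), funext fun e => h1 _ _ (conn_sec vo e)⟩
  clear h1
  revert μ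
  apply forall4
  decide +kernel

theorem rasmussen_D0 (s : ℤ) : IsRasmussen D0 s ↔ s = -2 := by
  constructor
  · rintro ⟨l, j, k, hl, hj, hk, hs⟩
    rcases label_cases l hl with rfl | rfl
    · have a := hj.unique filtP
      have b := hk.unique filtM
      omega
    · simp only [Bool.not_not] at hj hk
      rw [add_comm] at hj
      have hk' := filt_neg hk
      rw [neg_sub] at hk'
      have a := hj.unique filtP
      have b := hk'.unique filtM
      omega
  · rintro rfl
    refine ⟨lab, -3, -1, ⟨fun e f h => ?_, by decide +kernel⟩, filtP, filtM, by norm_num⟩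
    rw [vo_eq, conn_iff] at h
    rw [lab, lab, h]

/-- Row order for the elimination. -/
def rowE : Fin 12 ≃ Fin 6 × Bool where
  toFun i := ofIdx ([0, 1, 3, 5, 7, 9, 2, 6, 10, 11, 4, 8].getD i 0)
  invFun e := (![0, 1, 6, 2, 10, 3, 7, 4, 11, 5, 8, 9] : Fin 12 → Fin 12)
    ⟨idx e % 12, Nat.mod_lt _ (by decide)⟩
  left_inv := by decide
  right_inv := by decide

/-- Column order for the elimination. -/
def colE : Fin 12 ≃ Fin 6 × Bool where
  toFun i := ofIdx ([0, 1, 8, 5, 10, 4, 2, 6, 7, 9, 3, 11].getD i 0)
  invFun e := (![0, 1, 6, 10, 5, 3, 7, 8, 2, 9, 4, 11] : Fin 12 → Fin 12)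
    ⟨idx e % 12, Nat.mod_lt _ (by decide)⟩
  left_inv := by decide
  right_inv := by decide

/-- Lower factor. -/
def matL : Matrix (Fin 12) (Fin 12) ℤ :=
  !![1, 0, 0, 0, 0, 0, 0, 0, 0, 0, 0, 0;
 0, 1, 0, 0, 0, 0, 0, 0, 0, 0, 0, 0;
 0, -1, 1, 0, 0, 0, 0, 0, 0, 0, 0, 0;
 0, 0, 0, 1, 0, 0, 0, 0, 0, 0, 0, 0;
 0, 0, 0, 0, 1, 0, 0, 0, 0, 0, 0, 0;
 0, 0, 0, 0, 0, 1, 0, 0, 0, 0, 0, 0;
 0, 0, 0, 0, 0, 0, 1, 0, 0, 0, 0, 0;
 0, 0, 0, 0, 0, 0, 0, 1, 0, 0, 0, 0;
 1, 0, 0, 0, 1, 0, 0, 0, 1, 0, 0, 0;
 0, 0, 0, 0, 0, 0, 0, 0, 0, 1, 0, 0;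
 0, 0, 0, 2, 0, 1, 1, 0, -2, 1, 1, 0;
 0, 0, 1, 0, 0, 0, 0, 1, 2, -2, 0, 1]

/-- Upper factor. -/
def matU : Matrix (Fin 12) (Fin 12) ℤ :=
  !![1, 0, 0, 0, 0, 0, 0, 0, 0, 0, 0, 0;
 0, -1, 1, 0, 0, 0, 0, 0, 0, 0, 0, 0;
 0, 0, 1, 0, 0, 0, 0, 0, 0, 0, -1, 0;
 0, 0, 0, -1, 0, 0, 0, 0, 1, 0, 0, 0;
 0, 0, 0, 0, 1, 0, 0, 0, -1, 0, 0, 0;
 0, 0, 0, 0, 0, 1, 0, 0, 0, -1, 0, 0;
 0, 0, 0, 0, 0, 0, 1, 0, 0, 0, -2, 1;
 0, 0, 0, 0, 0, 0, 0, 1, -2, 0, 1, 0;
 0, 0, 0, 0, 0, 0, 0, 0, 1, 0, 0, -2;
 0, 0, 0, 0, 0, 0, 0, 0, 0, 1, 0, -1;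
 0, 0, 0, 0, 0, 0, 0, 0, 0, 0, 2, -4;
 0, 0, 0, 0, 0, 0, 0, 0, 0, 0, 0, 2]

theorem linkDet_D0 : linkDet D0 0 = 4 := by
  rw [linkDet, ← Int.natCast_inj, Int.natCast_natAbs,
    ← Matrix.abs_det_submatrix_equiv_equiv rowE colE]
  have h : ∀ M : Matrix (Fin 12) (Fin 12) ℤ, (∀ i j, M i j = ∑ k, matL i k * matU k j) →
      |M.det| = ((4 : ℕ) : ℤ) := by
    intro M hM
    have : M = matL * matU := by
      ext i j
      rw [hM, Matrix.mul_apply]
    rw [this, Matrix.det_mul, Matrix.det_of_isLowerTriangular matL (by decide +kernel),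
      Matrix.det_of_isUpperTriangular (M := matU) (by decide +kernel)]
    decide +kernel
  apply h
  decide +kernel

end Pool.Agent.Lib.MP_feb729_gt
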