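import Mathlib

/-!
Smooth links in the three-sphere, surfaces in the four-ball, regular diagrams, the determinant
and the Rasmussen invariant of links in the form of Beliakova and Wehrli.
-/

namespace Pool.Agent.Lib.MP_feb729_gt

open scoped ContDiff Real

/-- Euclidean four-space, written as the complex plane squared. -/
abbrev Space : Type := EuclideanSpace ℂ (Fin 2)

/-- Congruence of parameters modulo `2π`. -/
def Cong (s u : ℝ) : Prop := ∃ k : ℤ, s = u + k * (2 * π)

/-- `γ` is a smooth oriented link in the unit sphere: `2π`-periodic smooth immersions that are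
injective modulo the period and have disjoint images. -/
def IsLink {m : ℕ} (γ : Fin m → ℝ → Space) : Prop :=
  (∀ i, ContDiff ℝ ∞ (γ i)) ∧ (∀ i t, ‖γ i t‖ = 1) ∧ (∀ i t, deriv (γ i) t ≠ 0) ∧
    ∀ i j s u, γ i s = γ j u ↔ i = j ∧ Cong s u

/-- `φ` restricts to a smooth proper embedding of the closed unit disc in the four-ball,
transverse to the sphere, with oriented boundary `κ`. -/
def IsDisc (φ : ℂ → Space) (κ : ℝ → Space) : Prop :=
  ContDiff ℝ ∞ φ ∧ Set.InjOn φ (Metric.closedBall 0 1) ∧
    (∀ z, ‖z‖ ≤ 1 → Function.Injective (fderiv ℝ φ z)) ∧ (∀ z, ‖z‖ < 1 → ‖φ z‖ < 1) ∧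
    (∀ z, ‖z‖ = 1 → 0 < deriv (fun r : ℝ => ‖φ (r • z)‖ ^ 2) 1) ∧
    ∀ t : ℝ, φ (Complex.exp (t * Complex.I)) = κ t

/-- `ψ` restricts to a smooth proper embedding of the annulus `(ℝ / 2πℤ) × [0, 1]` in the
four-ball, transverse to the sphere, with oriented boundary `κ₁ ∪ κ₀`. -/
def IsAnnulus (ψ : ℝ × ℝ → Space) (κ₁ κ₀ : ℝ → Space) : Prop :=
  ContDiff ℝ ∞ ψ ∧
    (∀ p q : ℝ × ℝ, p.2 ∈ Set.Icc (0 : ℝ) 1 → q.2 ∈ Set.Icc (0 : ℝ) 1 →
      (ψ p = ψ q ↔ Cong p.1 q.1 ∧ p.2 = q.2)) ∧
    (∀ p : ℝ × ℝ, p.2 ∈ Set.Icc (0 : ℝ) 1 → Function.Injective (fderiv ℝ ψ p)) ∧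
    (∀ p : ℝ × ℝ, p.2 ∈ Set.Ioo (0 : ℝ) 1 → ‖ψ p‖ < 1) ∧
    (∀ t, deriv (fun s : ℝ => ‖ψ (t, s)‖ ^ 2) 0 < 0 ∧ 0 < deriv (fun s : ℝ => ‖ψ (t, s)‖ ^ 2) 1) ∧
    ∀ t, ψ (t, 1) = κ₁ t ∧ ψ (t, 0) = κ₀ (-t)

/-- Stereographic projection from the point `(0, i)` followed by projection to the plane. -/
noncomputable def proj (x : Space) : ℂ := x 0 / (1 - ((x 1).im : ℂ))

/-- The height of the stereographic image above the plane of projection. -/
noncomputable def height (x : Space) : ℝ := (x 1).re / (1 - (x 1).im)

/-- Signed Gauss data of a diagram with `n` crossings. A passage `(c, b)` is the over strand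
(`b = true`) or the under strand (`b = false`) at crossing `c`; `next` is the next passage along
the oriented link, and `pos c` says that crossing `c` is positive. The edge `p` of the diagram
runs from the passage `p` to the passage `next p`. -/
structure Diagram (n : ℕ) where
  /-- the following passage -/
  next : Equiv.Perm (Fin n × Bool)
  /-- the sign of a crossing -/
  pos : Fin n → Bool

variable {n : ℕ}

/-- The projection of `γ` is regular, every component meets a crossing, and `D` is the signed
Gauss data of the resulting diagram. -/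
def IsDiagramOf {m : ℕ} (D : Diagram n) (γ : Fin m → ℝ → Space) : Prop :=
  ∃ (comp : Fin n × Bool → Fin m) (τ : Fin n × Bool → ℝ),
    (∀ i t, (γ i t 1).im ≠ 1) ∧ (∀ i t, deriv (fun s => proj (γ i s)) t ≠ 0) ∧
    Function.Surjective comp ∧ (∀ p q, comp p = comp q → Cong (τ p) (τ q) → p = q) ∧
    (∀ i j s u, proj (γ i s) = proj (γ j u) → (i = j ∧ Cong s u) ∨
      ∃ c b, i = comp (c, b) ∧ j = comp (c, !b) ∧ Cong s (τ (c, b)) ∧ Cong u (τ (c, !b))) ∧
    (∀ c, proj (γ (comp (c, true)) (τ (c, true))) = proj (γ (comp (c, false)) (τ (c, false))) ∧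
      height (γ (comp (c, false)) (τ (c, false))) < height (γ (comp (c, true)) (τ (c, true))) ∧
      0 < (if D.pos c then 1 else -1) *
        (starRingEnd ℂ (deriv (fun s => proj (γ (comp (c, true)) s)) (τ (c, true))) *
          deriv (fun s => proj (γ (comp (c, false)) s)) (τ (c, false))).im) ∧
    ∀ p, comp (D.next p) = comp p ∧ ∃ u, τ p < u ∧ Cong u (τ (D.next p)) ∧
      ∀ q w, comp q = comp p → Cong w (τ q) → ¬ (τ p < w ∧ w < u)

/-- The determinant of the link: the absolute value of a first minor of the Fox colouring matrix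
on the edges. The row of the crossing `c₀` is replaced by a unit row, which deletes that row and
one column. -/
def linkDet (D : Diagram n) (c₀ : Fin n) : ℕ :=
  (Matrix.of fun p e : Fin n × Bool =>
    if p.2 then (if e = D.next.symm p then (1 : ℤ) else 0) - (if e = p then 1 else 0)
    else if p.1 = c₀ then (if e = p then 1 else 0)
    else (if e = D.next.symm p then 1 else 0) + (if e = p then 1 else 0) -
      2 * (if e = (p.1, true) then 1 else 0)).det.natAbs

/-- The edges `e`, `f` are joined at a crossing in the resolution `v`. The 0-resolution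
(`v c = false`) of a positive crossing and the 1-resolution of a negative crossing are the
oriented ones. -/
def Join (D : Diagram n) (v : Fin n → Bool) (e f : Fin n × Bool) : Prop :=
  ∃ c b, if v c = D.pos c then
      (e = D.next.symm (c, b) ∧ f = D.next.symm (c, !b)) ∨ (e = (c, b) ∧ f = (c, !b))
    else e = D.next.symm (c, b) ∧ f = (c, !b)

/-- The edges `e`, `f` lie on the same circle of the resolution `v`. -/
def Conn (D : Diagram n) (v : Fin n → Bool) : Fin n × Bool → Fin n × Bool → Prop :=
  Relation.EqvGen (Join D v)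

/-- The number of circles of the resolution `v` that contain an edge in `S`. -/
noncomputable def circles (D : Diagram n) (v : Fin n → Bool) (S : Set (Fin n × Bool)) : ℕ :=
  Set.ncard {C : Set (Fin n × Bool) | ∃ e ∈ S, C = {f | Conn D v e f}}

/-- Generators of the Khovanov-Lee complex: a resolution and a labelling of its circles by
`1` (`true`) or `x` (`false`). -/
def Gen (D : Diagram n) : Type :=
  {g : (Fin n → Bool) × (Fin n × Bool → Bool) // ∀ e f, Conn D g.1 e f → g.2 e = g.2 f}

/-- The quantum degree of a generator. -/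
noncomputable def qdeg (D : Diagram n) (g : Gen D) : ℤ :=
  (circles D g.1.1 {e | g.1.2 e = true} : ℤ) - circles D g.1.1 {e | g.1.2 e = false} +
    (Finset.univ.filter fun c => g.1.1 c = true).card +
    (Finset.univ.filter fun c => D.pos c = true).card -
    2 * (Finset.univ.filter fun c => D.pos c = false).card

/-- `h` occurs in the image of `g` under the edge map of Lee's algebra `ℚ[x]/(x² - 1)` that
changes crossing `c` from `0` to `1`: a split uses `Δ 1 = 1 ⊗ x + x ⊗ 1`, `Δ x = x ⊗ x + 1 ⊗ 1`,
a merge uses the product. -/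
def Inc (D : Diagram n) (g h : Gen D) (c : Fin n) : Prop :=
  g.1.1 c = false ∧ h.1.1 = Function.update g.1.1 c true ∧
    (∀ e, ¬ Conn D g.1.1 e (D.next.symm (c, true)) → ¬ Conn D g.1.1 e (c, true) →
      h.1.2 e = g.1.2 e) ∧
    (Conn D g.1.1 (D.next.symm (c, true)) (c, true) →
      g.1.2 (c, true) = xor (h.1.2 (D.next.symm (c, true))) (h.1.2 (c, true))) ∧
    (¬ Conn D g.1.1 (D.next.symm (c, true)) (c, true) →
      h.1.2 (c, true) = (g.1.2 (D.next.symm (c, true)) == g.1.2 (c, true)))

open Classical in
/-- Lee's differential on rational chains. -/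
noncomputable def leeD (D : Diagram n) (y : Gen D → ℚ) (h : Gen D) : ℚ :=
  ∑ᶠ g, ∑ c, if Inc D g h c then
    (-1) ^ (Finset.univ.filter fun c' => c' < c ∧ g.1.1 c' = true).card * y g else 0

/-- A labelling of the circles of the oriented resolution in which the two circles at each
crossing get different labels. -/
def IsLeeLabel (D : Diagram n) (l : Fin n × Bool → Bool) : Prop :=
  (∀ e f, Conn D (fun c => !D.pos c) e f → l e = l f) ∧
    ∀ c, l (D.next.symm (c, true)) ≠ l (c, true)

/-- Lee's canonical cycle: the circles of the oriented resolution labelled `true` carry `1 + x`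
and the others carry `1 - x`. -/
noncomputable def canon (D : Diagram n) (l : Fin n × Bool → Bool) (g : Gen D) : ℚ :=
  if g.1.1 = fun c => !D.pos c then (-1) ^ circles D g.1.1 {e | l e = false ∧ g.1.2 e = false}
  else 0

/-- `j` is the filtration degree of the homology class of the cycle `z`. -/
def IsFiltDeg (D : Diagram n) (z : Gen D → ℚ) (j : ℤ) : Prop :=
  IsGreatest {i : ℤ | ∃ y : Gen D → ℚ, ∀ g, qdeg D g < i → z g + leeD D y g = 0} j

/-- `s` is the Rasmussen invariant in the form of Beliakova and Wehrli: the mean of the filtration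
degrees of the sum and of the difference of the canonical classes of the orientation and of its
reverse. -/
def IsRasmussen (D : Diagram n) (s : ℤ) : Prop :=
  ∃ (l : Fin n × Bool → Bool) (j k : ℤ), IsLeeLabel D l ∧
    IsFiltDeg D (canon D l + canon D fun e => !l e) j ∧
    IsFiltDeg D (canon D l - canon D fun e => !l e) k ∧ 2 * s = j + k

end Pool.Agent.Lib.MP_feb729_gt
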