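import Pool.Agent.Lib.MP_feb729_gt.Defs

/-! Three Hopf fibres, a disc and an annulus in the four-ball. -/

namespace Pool.Agent.Lib.MP_feb729_gt

open scoped ContDiff Real
open Complex

/-- The point `(4/5, b)`. -/
noncomputable def pt (b : ℂ) : Space := !₂[4 / 5, b]

@[simp] theorem pt_zero (b : ℂ) : pt b 0 = 4 / 5 := rfl
@[simp] theorem pt_one (b : ℂ) : pt b 1 = b := rfl

theorem norm_pt_sq (b : ℂ) : ‖pt b‖ ^ 2 = 16 / 25 + ‖b‖ ^ 2 := by
  rw [EuclideanSpace.norm_sq_eq, Fin.sum_univ_two]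
  simp
  norm_num

theorem norm_pt {b : ℂ} (hb : ‖b‖ = 3 / 5) : ‖pt b‖ = 1 := by
  have h := norm_pt_sq b
  rw [hb] at h
  have h2 : ‖pt b‖ ^ 2 = 1 := by rw [h]; norm_num
  exact (pow_eq_one_iff_of_nonneg (norm_nonneg _) two_ne_zero).1 h2

theorem pt_ne_zero (b : ℂ) : pt b ≠ 0 := by
  intro h
  have := congrArg (fun x : Space => x 0) h
  simp at this

/-- Second coordinates of the base points. -/
noncomputable def bb : Fin 3 → ℂ := ![3 / 5 * I, 3 / 5, -(3 / 5)]

/-- Directions of the components. -/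
def ep : Fin 3 → ℝ := ![1, 1, -1]

theorem norm_bb (i : Fin 3) : ‖bb i‖ = 3 / 5 := by
  fin_cases i <;> simp [bb]

theorem ep_cases (i : Fin 3) : ep i = 1 ∨ ep i = -1 := by
  fin_cases i <;> simp [ep]

/-- The unit complex number with argument `t`. -/
noncomputable def ex (t : ℝ) : ℂ := exp (t * I)

theorem norm_ex (t : ℝ) : ‖ex t‖ = 1 := norm_exp_ofReal_mul_I t

theorem ex_ne_zero (t : ℝ) : ex t ≠ 0 := exp_ne_zero _

theorem ex_eq_iff (s u : ℝ) : ex s = ex u ↔ Cong s u := by
  rw [ex, ex, exp_eq_exp_iff_exists_int]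
  constructor
  · rintro ⟨k, hk⟩
    refine ⟨k, ?_⟩
    have : (s : ℂ) * I = (u + k * (2 * π)) * I := by rw [hk]; ring
    have := mul_right_cancel₀ I_ne_zero this
    exact_mod_cast this
  · rintro ⟨k, rfl⟩
    exact ⟨k, by push_cast; ring⟩

theorem hasDerivAt_ex (t : ℝ) : HasDerivAt ex (I * ex t) t := by
  have h : HasDerivAt (fun s : ℝ => (s : ℂ) * I) I t := by
    simpa using (Complex.ofRealCLM.hasDerivAt (x := t)).mul_const I
  exact h.cexp.congr_deriv (mul_comm _ _)

theorem contDiff_ex : ContDiff ℝ ∞ ex :=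
  (Complex.contDiff_exp (𝕜 := ℝ)).comp (Complex.ofRealCLM.contDiff.mul contDiff_const)

theorem Cong.neg {s u : ℝ} (h : Cong s u) : Cong (-s) (-u) := by
  obtain ⟨k, rfl⟩ := h
  exact ⟨-k, by push_cast; ring⟩

theorem Cong.symm {s u : ℝ} (h : Cong s u) : Cong u s := by
  obtain ⟨k, rfl⟩ := h
  exact ⟨-k, by push_cast; ring⟩

theorem Cong.trans {s u w : ℝ} (h : Cong s u) (h' : Cong u w) : Cong s w := by
  obtain ⟨k, rfl⟩ := h
  obtain ⟨l, rfl⟩ := h'
  exact ⟨k + l, by push_cast; ring⟩

theorem cong_ep (i : Fin 3) (s u : ℝ) : Cong (ep i * s) (ep i * u) ↔ Cong s u := by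
  rcases ep_cases i with h | h <;> rw [h]
  · simp
  · constructor
    · intro h
      simpa using h.neg
    · intro h
      simpa using h.neg

/-- The link. -/
noncomputable def link (i : Fin 3) (t : ℝ) : Space := ex (ep i * t) • pt (bb i)

theorem bb_inj : Function.Injective bb := by
  intro i j h
  fin_cases i <;> fin_cases j <;> simp [bb, Complex.ext_iff] at h ⊢ <;> norm_num at h

theorem hasDerivAt_ex_ep (i : Fin 3) (t : ℝ) :
    HasDerivAt (fun s => ex (ep i * s)) (ep i * (I * ex (ep i * t))) t := by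
  have := (hasDerivAt_ex (ep i * t)).scomp t ((hasDerivAt_id t).const_mul (ep i))
  simpa [Function.comp_def] using this

theorem ep_ne_zero (i : Fin 3) : (ep i : ℂ) ≠ 0 := by
  rcases ep_cases i with h | h <;> simp [h]

theorem isLink : IsLink link := by
  refine ⟨fun i => ?_, fun i t => ?_, fun i t => ?_, fun i j s u => ?_⟩
  · exact (contDiff_ex.comp (contDiff_const.mul contDiff_id)).smul contDiff_const
  · rw [link, norm_smul, norm_ex, norm_pt (norm_bb i), one_mul]
  · have := ((hasDerivAt_ex_ep i t).smul_const (pt (bb i))).deriv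
    erw [this]
    exact smul_ne_zero (mul_ne_zero (ep_ne_zero i) (mul_ne_zero I_ne_zero (ex_ne_zero _)))
      (pt_ne_zero _)
  · constructor
    · intro h
      have h0 := congrArg (fun x : Space => x 0) h
      have h1 := congrArg (fun x : Space => x 1) h
      simp only [link, PiLp.smul_apply, pt_zero, pt_one, smul_eq_mul] at h0 h1
      have e := mul_right_cancel₀ (by norm_num) h0
      rw [e] at h1
      have := bb_inj (mul_left_cancel₀ (ex_ne_zero _) h1)
      subst this
      exact ⟨rfl, (cong_ep i s u).1 ((ex_eq_iff _ _).1 e)⟩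
    · rintro ⟨rfl, h⟩
      rw [link, link, (ex_eq_iff _ _).2 ((cong_ep i s u).2 h)]

/-- The disc. -/
noncomputable def disc (z : ℂ) : Space := z • pt (bb 0)

theorem isDisc : IsDisc disc (link 0) := by
  have hn : ∀ z, ‖disc z‖ = ‖z‖ := fun z => by
    rw [disc, norm_smul, norm_pt (norm_bb 0), mul_one]
  have hinj : Function.Injective disc := smul_left_injective ℂ (pt_ne_zero _)
  refine ⟨contDiff_id.smul contDiff_const, hinj.injOn, fun z _ => ?_, fun z hz => ?_,
    fun z hz => ?_, fun t => ?_⟩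
  · have h : HasFDerivAt disc ((ContinuousLinearMap.id ℝ ℂ).smulRight (pt (bb 0))) z :=
      (hasFDerivAt_id z).smul_const _
    rw [h.fderiv]
    exact hinj
  · rwa [hn]
  · have : (fun r : ℝ => ‖disc (r • z)‖ ^ 2) = fun r => r ^ 2 := by
      funext r
      rw [hn, norm_smul, hz, mul_one, Real.norm_eq_abs, sq_abs]
    rw [this]
    simp
  · simp [disc, link, ep, ex]

/-- The annulus. -/
noncomputable def ann (p : ℝ × ℝ) : Space := ex p.1 • pt (3 / 5 * (2 * p.2 - 1 : ℝ))

theorem pt_eq (b : ℂ) : pt b = pt 0 + b • (!₂[0, 1] : Space) := by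
  ext i
  fin_cases i <;> simp [pt]

theorem norm_ann (p : ℝ × ℝ) : ‖ann p‖ ^ 2 = 16 / 25 + 9 / 25 * (2 * p.2 - 1) ^ 2 := by
  rw [ann, norm_smul, norm_ex, one_mul, norm_pt_sq, norm_mul, Complex.norm_real, mul_pow,
    Real.norm_eq_abs, sq_abs]
  norm_num

theorem isAnnulus : IsAnnulus ann (link 1) (link 2) := by
  have hpt : ∀ p : ℝ × ℝ, HasFDerivAt (fun p : ℝ × ℝ => pt (3 / 5 * (2 * p.2 - 1 : ℝ)))
      ((ContinuousLinearMap.snd ℝ ℝ ℝ).smulRight ((6 / 5 : ℂ) • (!₂[0, 1] : Space))) p := by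
    intro p
    have e : (fun p : ℝ × ℝ => pt (3 / 5 * (2 * p.2 - 1 : ℝ))) =
        fun p => pt (-(3 / 5)) + p.2 • ((6 / 5 : ℂ) • (!₂[0, 1] : Space)) := by
      funext p
      ext i
      fin_cases i <;> simp [pt]
      ring
    rw [e]
    exact (hasFDerivAt_snd.smul_const _).const_add _
  refine ⟨?_, fun p q _ _ => ?_, fun p _ => ?_, fun p hp => ?_, fun t => ?_, fun t => ?_⟩
  · refine (contDiff_ex.comp contDiff_fst).smul ?_
    simp only [pt_eq (3 / 5 * _)]
    have h : ContDiff ℝ ∞ fun p : ℝ × ℝ => (3 / 5 * (2 * p.2 - 1 : ℝ) : ℂ) :=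
      contDiff_const.mul (Complex.ofRealCLM.contDiff.comp
        (f := fun p : ℝ × ℝ => 2 * p.2 - 1) (by fun_prop))
    exact contDiff_const.add (h.smul (contDiff_const (c := (!₂[0, 1] : Space))))
  · constructor
    · intro h
      have h0 := congrArg (fun x : Space => x 0) h
      have h1 := congrArg (fun x : Space => x 1) h
      simp only [ann, PiLp.smul_apply, pt_zero, pt_one, smul_eq_mul] at h0 h1
      have e := mul_right_cancel₀ (by norm_num) h0
      rw [e] at h1
      have h2 := mul_left_cancel₀ (by norm_num) (mul_left_cancel₀ (ex_ne_zero _) h1)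
      have h3 := Complex.ofReal_injective h2
      exact ⟨(ex_eq_iff _ _).1 e, by linarith⟩
    · rintro ⟨h, h'⟩
      rw [ann, ann, (ex_eq_iff _ _).2 h, h']
  · have h1 : HasFDerivAt (fun p : ℝ × ℝ => ex p.1)
        ((ContinuousLinearMap.fst ℝ ℝ ℝ).smulRight (I * ex p.1)) p :=
      (hasDerivAt_ex p.1).hasFDerivAt.comp p hasFDerivAt_fst
    have h := (h1.smul (hpt p)).fderiv
    erw [h]
    rw [injective_iff_map_eq_zero]
    intro w hw
    have h0 := congrArg (fun x : Space => x 0) hw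
    have h2 := congrArg (fun x : Space => x 1) hw
    simp [ex_ne_zero] at h0
    simp [h0, ex_ne_zero] at h2
    exact Prod.ext h0 h2
  · have h := norm_ann p
    have h1 : (2 * p.2 - 1) ^ 2 < 1 := by nlinarith [hp.1, hp.2]
    have : ‖ann p‖ ^ 2 < 1 := by rw [h]; linarith
    exact (pow_lt_one_iff_of_nonneg (norm_nonneg _) two_ne_zero).1 this
  · simp only [norm_ann]
    have hd : ∀ s : ℝ, HasDerivAt (fun s : ℝ => 16 / 25 + 9 / 25 * (2 * s - 1) ^ 2)
        (9 / 25 * (4 * (2 * s - 1))) s := by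
      intro s
      have := (((((hasDerivAt_id s).const_mul 2).sub_const 1).pow 2).const_mul (9 / 25)).const_add
        (16 / 25)
      refine this.congr_deriv ?_
      simp
      ring
    rw [(hd 0).deriv, (hd 1).deriv]
    norm_num
  · constructor
    · simp [ann, link, ep, bb]
      norm_num
    · simp [ann, link, ep, bb]

theorem disc_ne_ann (z : ℂ) (p : ℝ × ℝ) : disc z ≠ ann p := by
  intro h
  have h0 := congrArg (fun x : Space => x 0) h
  have h1 := congrArg (fun x : Space => x 1) h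
  simp only [ann, disc, PiLp.smul_apply, pt_zero, pt_one, smul_eq_mul] at h0 h1
  have e := mul_right_cancel₀ (by norm_num) h0
  rw [e] at h1
  have h2 := congrArg Complex.im (mul_left_cancel₀ (ex_ne_zero _) h1)
  simp [bb] at h2

end Pool.Agent.Lib.MP_feb729_gt
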