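import Pool.Agent.Lib.MP_feb729_gt.GridDefs

/-! Certificates for filtration levels in grid complexes of size six. -/

namespace Pool.Agent.Lib.MP_feb729_gt

open Equiv

/-- Six digits in base six. -/
def enc6 (f : ℕ → ℕ) : ℕ := f 0 + 6 * (f 1 + 6 * (f 2 + 6 * (f 3 + 6 * (f 4 + 6 * f 5))))

/-- A digit in base six. -/
def dig (e i : ℕ) : ℕ := e / 6 ^ i % 6

/-- The code of a grid state. -/
def code (x : Perm (Fin 6)) : ℕ :=
  x 0 + 6 * (x 1 + 6 * (x 2 + 6 * (x 3 + 6 * (x 4 + 6 * x 5))))

theorem dig_code (x : Perm (Fin 6)) (i : Fin 6) : dig (code x) i = x i := by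
  have h0 := (x 0).isLt
  have h1 := (x 1).isLt
  have h2 := (x 2).isLt
  have h3 := (x 3).isLt
  have h4 := (x 4).isLt
  have h5 := (x 5).isLt
  fin_cases i
  · show code x / 6 ^ 0 % 6 = x 0
    unfold code
    omega
  · show code x / 6 ^ 1 % 6 = x 1
    unfold code
    omega
  · show code x / 6 ^ 2 % 6 = x 2
    unfold code
    omega
  · show code x / 6 ^ 3 % 6 = x 3
    unfold code
    omega
  · show code x / 6 ^ 4 % 6 = x 4
    unfold code
    omega
  · show code x / 6 ^ 5 % 6 = x 5
    unfold code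
    omega

theorem code_inj {x y : Perm (Fin 6)} (h : code x = code y) : x = y := by
  ext i
  rw [← dig_code, ← dig_code, h]

theorem code_eq (x : Perm (Fin 6)) (f : ℕ → ℕ) (h : ∀ i : Fin 6, (x i : ℕ) = f i) :
    code x = enc6 f := by
  rw [code, h 0, h 1, h 2, h 3, h 4, h 5]
  rfl

/-- Cyclic difference. -/
def sb (a b : ℕ) : ℕ := (a + 6 - b) % 6

theorem sub_val (a b : Fin 6) : (a - b).val = sb a b := by
  revert a b
  decide

/-- Conjunction over six indices. -/
def all6 (p : ℕ → Bool) : Bool := p 0 && p 1 && p 2 && p 3 && p 4 && p 5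

theorem all6_iff (p : ℕ → Bool) : all6 p = true ↔ ∀ k : Fin 6, p k = true := by
  simp only [all6, Bool.and_eq_true, Fin.forall_fin_succ, and_assoc]
  simp

/-- Sum over six indices. -/
def sum6 (f : ℕ → ℤ) : ℤ := f 0 + f 1 + f 2 + f 3 + f 4 + f 5

theorem sum6_eq (f : ℕ → ℤ) : sum6 f = ∑ k : Fin 6, f k := by
  rw [Fin.sum_univ_six]
  rfl

/-- Exclusive or over six indices. -/
def xor6 (f : ℕ → ℕ) : ℕ := f 0 ^^^ f 1 ^^^ f 2 ^^^ f 3 ^^^ f 4 ^^^ f 5

/-- A binary digit as an element of the field with two elements. -/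
def bitAt (N b : ℕ) : ZMod 2 := if N.testBit b then 1 else 0

theorem bitAt_zero (b : ℕ) : bitAt 0 b = 0 := by simp [bitAt]

theorem bitAt_xor (N M b : ℕ) : bitAt (N ^^^ M) b = bitAt N b + bitAt M b := by
  simp only [bitAt, Nat.testBit_xor]
  cases N.testBit b <;> cases M.testBit b <;> decide

theorem bitAt_xor6 (f : ℕ → ℕ) (b : ℕ) : bitAt (xor6 f) b = ∑ k : Fin 6, bitAt (f k) b := by
  rw [Fin.sum_univ_six]
  simp only [xor6, bitAt_xor]
  rfl

theorem bitAt_pow (x y : Perm (Fin 6)) :
    bitAt (2 ^ code x) (code y) = if x = y then 1 else 0 := by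
  rw [bitAt, Nat.testBit_two_pow]
  by_cases h : x = y
  · simp [h]
  · have : code x ≠ code y := fun h' => h (code_inj h')
    simp [h, this]

/-- Computable emptiness test. -/
def rectB (o e i j : ℕ) : Bool :=
  i != j && all6 fun k => !(Nat.blt (sb k i) (sb j i)) ||
    (!(Nat.blt (sb (dig o k) (dig e i)) (sb (dig e j) (dig e i))) &&
      (k == i || !(Nat.blt (sb (dig e k) (dig e i)) (sb (dig e j) (dig e i)))))

theorem rectB_iff (G : Grid 6) (x : Perm (Fin 6)) (i j : Fin 6) :
    rectB (code G.O) (code x) i j = true ↔ EmptyRect G x i j := by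
  simp only [rectB, EmptyRect, Bool.and_eq_true, all6_iff, dig_code, Fin.lt_def, sub_val,
    Bool.or_eq_true, Bool.not_eq_true', ← Bool.not_eq_true, Nat.blt_eq, bne_iff_ne, beq_iff_eq,
    ne_eq, Fin.val_inj]
  refine and_congr_right fun _ => forall_congr' fun k => ?_
  tauto

/-- Computable transposition. -/
def swB (e i j : ℕ) : ℕ :=
  enc6 fun k => if k = i then dig e j else if k = j then dig e i else dig e k

theorem code_swap (x : Perm (Fin 6)) (i j : Fin 6) :
    code (x * swap i j) = swB (code x) i j := by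
  apply code_eq
  intro k
  simp only [Perm.mul_apply, swap_apply_def, dig_code, Fin.val_inj]
  split_ifs <;> rfl

/-- The sum of the vectors `k` over the end points of the empty rectangles. -/
def alongB (o e : ℕ) (k : ℕ → ℕ) : ℕ :=
  xor6 fun i => xor6 fun j => if rectB o e i j then k (swB e i j) else 0

theorem sum_gridD (G : Grid 6) (z : Perm (Fin 6) → ZMod 2) (k : ℕ → ℕ) (b : ℕ) :
    ∑ y, gridD G z y * bitAt (k (code y)) b =
      ∑ x, z x * bitAt (alongB (code G.O) (code x) k) b := by
  classical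
  simp only [gridD, Finset.sum_mul]
  rw [Finset.sum_comm]
  refine Finset.sum_congr rfl fun x _ => ?_
  rw [alongB, bitAt_xor6, Finset.mul_sum, Finset.sum_comm]
  refine Finset.sum_congr rfl fun i _ => ?_
  rw [bitAt_xor6, Finset.mul_sum, Finset.sum_comm]
  refine Finset.sum_congr rfl fun j _ => ?_
  by_cases h : EmptyRect G x i j
  · rw [if_pos ((rectB_iff G x i j).2 h), ← code_swap]
    simp [h]
  · rw [if_neg fun h' => h ((rectB_iff G x i j).1 h'), bitAt_zero]
    simp [h]

/-- The boundary of a state. -/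
def bdB (o e : ℕ) : ℕ := alongB o e fun a => 2 ^ a

theorem gridD_eq (G : Grid 6) (z : Perm (Fin 6) → ZMod 2) (y : Perm (Fin 6)) :
    gridD G z y = ∑ x, z x * bitAt (bdB (code G.O) (code x)) (code y) := by
  simp only [bdB]
  rw [← sum_gridD G z (fun a => 2 ^ a)]
  simp [bitAt_pow]

/-- Exclusive or of a list. -/
def xorL (L : List ℕ) : ℕ := L.foldr (· ^^^ ·) 0

/-- The chain given by a list of codes. -/
def lc (L : List ℕ) (y : Perm (Fin 6)) : ZMod 2 :=
  (L.map fun e => if code y = e then 1 else 0).sum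

/-- Test for codes of states. -/
def validB (e : ℕ) : Bool :=
  Nat.blt e 46656 && all6 fun i => all6 fun j => i == j || dig e i != dig e j

theorem exists_code {e : ℕ} (h : validB e = true) : ∃ x, code x = e := by
  simp only [validB, Bool.and_eq_true, Nat.blt_eq, all6_iff, Bool.or_eq_true, beq_iff_eq,
    bne_iff_ne, Fin.val_inj] at h
  let f : Fin 6 → Fin 6 := fun i => ⟨dig e i, Nat.mod_lt _ (by decide)⟩
  have hf : Function.Injective f := by
    intro i j hij
    rcases h.2 i j with h' | h'
    · exact h'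
    · exact absurd (congrArg Fin.val hij) h'
  refine ⟨Equiv.ofBijective f (Finite.injective_iff_bijective.1 hf), ?_⟩
  rw [code_eq _ (dig e) fun i => rfl]
  have := h.1
  simp only [enc6, dig]
  omega

theorem sum_lc (L : List ℕ) (hL : L.all validB = true) (g : ℕ → ℕ) (b : ℕ) :
    ∑ x, lc L x * bitAt (g (code x)) b = bitAt (xorL (L.map g)) b := by
  induction L with
  | nil => simp [lc, xorL, bitAt_zero]
  | cons e L ih =>
    rw [List.all_cons, Bool.and_eq_true] at hL
    obtain ⟨x, rfl⟩ := exists_code hL.1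
    have h1 : xorL ((code x :: L).map g) = g (code x) ^^^ xorL (L.map g) := rfl
    have h2 : ∀ y, lc (code x :: L) y = (if y = x then 1 else 0) + lc L y := by
      intro y
      have : code y = code x ↔ y = x := ⟨code_inj, fun h => by rw [h]⟩
      simp [lc, this]
    rw [h1, bitAt_xor, ← ih hL.2]
    simp [h2, add_mul, Finset.sum_add_distrib]

theorem mem_of_lc {L : List ℕ} {x : Perm (Fin 6)} (h : lc L x ≠ 0) : code x ∈ L := by
  by_contra hx
  apply h
  apply List.sum_eq_zero
  intro a ha
  obtain ⟨e, he, rfl⟩ := List.mem_map.1 ha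
  rw [if_neg]
  rintro rfl
  exact hx he

/-- Conjunction over all codes of states. -/
def allP (p : ℕ → Bool) : Bool :=
  all6 fun a => all6 fun b => b == a || all6 fun c => c == a || c == b || all6 fun d =>
    d == a || d == b || d == c || all6 fun e => e == a || e == b || e == c || e == d ||
      all6 fun f => f == a || f == b || f == c || f == d || f == e ||
        p (a + 6 * (b + 6 * (c + 6 * (d + 6 * (e + 6 * f)))))

theorem allP_spec {p : ℕ → Bool} (h : allP p = true) (x : Perm (Fin 6)) : p (code x) = true := by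
  simp only [allP, all6_iff, Bool.or_eq_true, beq_iff_eq, Fin.val_inj] at h
  have h1 := (h (x 0) (x 1)).resolve_left (by simp)
  have h2 := (h1 (x 2)).resolve_left (by simp)
  have h3 := (h2 (x 3)).resolve_left (by simp)
  have h4 := (h3 (x 4)).resolve_left (by simp)
  exact (h4 (x 5)).resolve_left (by simp)

/-- An indicator. -/
def ind (p : Bool) : ℤ := bif p then 1 else 0

/-- Computable Maslov function. -/
def masB (o e : ℕ) : ℤ :=
  1 + sum6 fun i => sum6 fun j =>
    ind (Nat.blt i j && Nat.blt (dig e i) (dig e j)) -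
      ind (Nat.ble i j && Nat.ble (dig e i) (dig o j)) -
      ind (Nat.blt i j && Nat.blt (dig o i) (dig e j)) +
      ind (Nat.blt i j && Nat.blt (dig o i) (dig o j))

theorem ind_eq (p : Bool) (q : Prop) [Decidable q] (h : p = true ↔ q) :
    ind p = if q then 1 else 0 := by
  cases p
  · rw [if_neg fun hq => by simpa using h.2 hq]
    rfl
  · rw [if_pos (h.1 rfl)]
    rfl

theorem masB_eq (O x : Perm (Fin 6)) : masB (code O) (code x) = maslov O x := by
  rw [masB, maslov, sum6_eq]
  congr 1
  refine Finset.sum_congr rfl fun i _ => ?_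
  rw [sum6_eq]
  refine Finset.sum_congr rfl fun j _ => ?_
  simp only [dig_code]
  rw [ind_eq _ (i < j ∧ x i < x j) (by simp [Nat.blt_eq]),
    ind_eq _ (i ≤ j ∧ x i ≤ O j) (by simp [Nat.ble_eq]),
    ind_eq _ (i < j ∧ O i < x j) (by simp [Nat.blt_eq]),
    ind_eq _ (i < j ∧ O i < O j) (by simp [Nat.blt_eq])]

theorem alexander_eq (G : Grid 6) (hG : comps G = 3) (x : Perm (Fin 6)) :
    alexander G x =
      ((masB (code G.O) (code x) - masB (code G.X) (code x) - 3 : ℤ) : ℚ) / 2 := by
  rw [alexander, hG, masB_eq, masB_eq]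
  push_cast
  ring

/-- The check for the upper bound: `Z` is a cycle in the right degrees and `Φ` a cocycle that
detects it. -/
def upperB (o o' : ℕ) (d t : ℤ) (Z : List ℕ) (Φ : ℕ → ℕ) : Bool :=
  Z.all validB && Z.all (fun e => masB o e == d && decide (masB o e - masB o' e - 3 ≤ 2 * t)) &&
    xorL (Z.map (bdB o)) == 0 && xorL (Z.map Φ) == 1 &&
    allP fun e => alongB o e Φ == 0

theorem hits_of_upperB (G : Grid 6) (hG : comps G = 3) (d t : ℤ) (Z : List ℕ) (Φ : ℕ → ℕ)
    (h : upperB (code G.O) (code G.X) d t Z Φ = true) : Hits G d t := by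
  simp only [upperB, Bool.and_eq_true, beq_iff_eq] at h
  obtain ⟨⟨⟨⟨h1, h2⟩, h3⟩, h4⟩, h5⟩ := h
  refine ⟨lc Z, fun x hx => ?_, ?_, fun y hy => ?_⟩
  · have := List.all_eq_true.1 h2 _ (mem_of_lc hx)
    simp only [Bool.and_eq_true, beq_iff_eq, decide_eq_true_eq] at this
    refine ⟨by rw [← masB_eq, this.1], ?_⟩
    rw [alexander_eq G hG, div_le_iff₀ (by norm_num)]
    exact_mod_cast (by omega : masB (code G.O) (code x) - masB (code G.X) (code x) - 3 ≤ t * 2)
  · funext y
    rw [gridD_eq, sum_lc Z h1, h3, bitAt_zero]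
    rfl
  · have a1 := sum_gridD G y Φ 0
    rw [hy, sum_lc Z h1 Φ, h4] at a1
    have a2 : ∀ x, alongB (code G.O) (code x) Φ = 0 := fun x => by
      simpa using allP_spec h5 x
    simp only [a2, bitAt_zero, mul_zero, Finset.sum_const_zero] at a1
    exact absurd a1 (by decide)

/-- Table lookup. -/
def look (T : List (ℕ × List ℕ)) (e : ℕ) : List ℕ := (T.lookup e).getD []

/-- The check for the lower bound: a contraction below the level `t`. -/
def lowerB (o o' : ℕ) (d t : ℤ) (H K : List (ℕ × List ℕ)) : Bool :=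
  allP fun e => masB o e != d || decide (2 * t ≤ masB o e - masB o' e - 3) ||
    ((look H e).all validB && 2 ^ e ==
      xorL ((look H e).map (bdB o)) ^^^ alongB o e fun a => xorL ((look K a).map (2 ^ ·)))

theorem le_of_lowerB (G : Grid 6) (hG : comps G = 3) (d t : ℤ) (H K : List (ℕ × List ℕ))
    (h : lowerB (code G.O) (code G.X) d t H K = true) (a : ℚ) (ha : Hits G d a) :
    (t : ℚ) ≤ a := by
  by_contra hlt
  obtain ⟨z, h1, h2, h3⟩ := ha
  have key : ∀ x, z x ≠ 0 → (look H (code x)).all validB = true ∧ 2 ^ code x =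
      xorL ((look H (code x)).map (bdB (code G.O))) ^^^
        alongB (code G.O) (code x) fun a => xorL ((look K a).map (2 ^ ·)) := by
    intro x hx
    have := allP_spec h x
    simp only [Bool.or_eq_true, bne_iff_ne, decide_eq_true_eq, Bool.and_eq_true,
      beq_iff_eq] at this
    obtain ⟨b1, b2⟩ := h1 x hx
    rcases this with (b | b) | b
    · exact absurd (by rw [masB_eq, b1]) b
    · exfalso
      rw [alexander_eq G hG, div_le_iff₀ (by norm_num)] at b2
      have b3 : ((2 * t : ℤ) : ℚ) ≤
        ((masB (code G.O) (code x) - masB (code G.X) (code x) - 3 : ℤ) : ℚ) := by exact_mod_cast b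
      push_cast at b2 b3
      apply hlt
      linarith
    · exact b
  apply h3 fun y => ∑ x, z x * lc (look H (code x)) y
  funext y
  have a1 := sum_gridD G z (fun a => xorL ((look K a).map (2 ^ ·))) (code y)
  rw [h2] at a1
  simp only [Pi.zero_apply, zero_mul, Finset.sum_const_zero] at a1
  have a2 : z y = ∑ x, z x * bitAt (2 ^ code x) (code y) := by simp [bitAt_pow]
  rw [gridD_eq, a2, ← add_zero (∑ x, _ * bitAt (bdB _ _) _), a1]
  simp only [Finset.sum_mul]
  rw [Finset.sum_comm, ← Finset.sum_add_distrib]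
  refine Finset.sum_congr rfl fun x _ => ?_
  by_cases hx : z x = 0
  · simp [hx]
  · obtain ⟨b1, b2⟩ := key x hx
    simp only [mul_assoc, ← Finset.mul_sum]
    rw [sum_lc _ b1, ← mul_add, ← bitAt_xor, ← b2]

end Pool.Agent.Lib.MP_feb729_gt
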