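import Pool.Agent.Lib.MP_feb729_gt.GridCert

/-! The two grids and their invariants. -/

namespace Pool.Agent.Lib.MP_feb729_gt

open Equiv

/-- The grid of the link. -/
def G0 : Grid 6 where
  O := ⟨![0, 2, 1, 3, 5, 4], ![0, 2, 1, 3, 5, 4], by decide, by decide⟩
  X := ⟨![3, 5, 4, 0, 2, 1], ![3, 5, 4, 0, 2, 1], by decide, by decide⟩
  ne := by decide

/-- The grid of the mirror image. -/
def G1 : Grid 6 where
  O := ⟨![1, 2, 0, 4, 5, 3], ![2, 0, 1, 5, 3, 4], by decide, by decide⟩
  X := ⟨![4, 5, 3, 1, 2, 0], ![5, 3, 4, 2, 0, 1], by decide, by decide⟩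
  ne := by decide

theorem card_three : (swap (0 : Fin 6) 3 * (swap 1 4 * swap 2 5)).cycleType.card = 3 := by
  have h1 : Perm.Disjoint (swap (1 : Fin 6) 4) (swap 2 5) := by
    unfold Perm.Disjoint
    decide
  have h2 : Perm.Disjoint (swap (0 : Fin 6) 3) (swap 1 4 * swap 2 5) := by
    unfold Perm.Disjoint
    decide
  have h3 : ∀ a b : Fin 6, a ≠ b → (swap a b).cycleType.card = 1 := fun a b h =>
    Perm.card_cycleType_eq_one.2 (Perm.isCycle_swap h)
  rw [h2.cycleType_mul, h1.cycleType_mul, Multiset.card_add, Multiset.card_add,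
    h3 _ _ (by decide), h3 _ _ (by decide), h3 _ _ (by decide)]

theorem comps_G0 : comps G0 = 3 := by
  rw [comps, ← card_three]
  congr 2
  decide

theorem comps_G1 : comps G1 = 3 := by
  rw [comps, ← card_three]
  congr 2
  decide

theorem code_G0 : code G0.O = 38280 ∧ code G0.X = 10545 := by decide

theorem code_G1 : code G1.O = 30685 ∧ code G1.X = 2950 := by decide

theorem up0t : upperB 38280 10545 0 0
    [3015, 8415, 8745, 8840, 10570, 11770, 16695, 16795, 17950, 19690, 22275, 24505, 25780,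
    26320, 39835, 41060, 41115, 41635, 41835, 42865, 43010, 43060]
    (fun a => (List.elem a
    [39835]).toNat) = true := by
  decide +kernel

theorem low0t : lowerB 38280 10545 0 0
    []
    [(8735, [39835]), (3835, [16795]), (2360, [8840]), (4210, [43060]), (19840, [26320]), (3010,
    [15970]), (12130, [19690, 26320])] = true := by
  decide +kernel

theorem up0b : upperB 38280 10545 (-5) (-4)
    [38130]
    (fun a => (List.elem a
    [3395, 5735, 5885, 6020, 11190, 13530, 13800, 21930, 22830, 29600, 29640, 38130, 38240,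
    38280]).toNat) = true := by
  decide +kernel

theorem low0b : lowerB 38280 10545 (-5) (-4)
    []
    [] = true := by
  decide +kernel

theorem up1t : upperB 30685 2950 0 1
    [16695, 17055, 20805, 32240, 32265, 32600, 33885, 34815, 35060, 35075, 35465, 44120, 44145,
    44535]
    (fun a => (List.elem a
    [16695]).toNat) = true := by
  decide +kernel

theorem low1t : lowerB 30685 2950 0 1
    []
    [(13160, [32600]), (5685, [35465, 44535]), (3735, [16695]), (10575, [17055]), (28985,
    [35465]), (28595, [35075])] = true := by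
  decide +kernel

theorem up1b : upperB 30685 2950 (-5) (-3)
    [15240, 30180]
    (fun a => (List.elem a
    [2285, 3595, 4945, 6820, 7045, 7285, 15240, 23005, 30685]).toNat) = true := by
  decide +kernel

theorem low1b : lowerB 30685 2950 (-5) (-3)
    [(13800, [14160]), (15000, [15210]), (7285, [7465]), (15050, [15230, 23010]), (17645, [2150,
    4525, 14160, 15230, 23010, 25860, 30390, 33240, 40970, 43345]), (8585, [39685])]
    [(15060, [15240]), (22825, [15240, 22830]), (2105, [15240, 40980]), (12720, [12900, 15240]),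
    (14820, [14850, 15240]), (11220, [17700]), (12270, [12300, 17700]), (11165, [12245, 12300,
    17700])] = true := by
  decide +kernel

theorem least_of (G : Grid 6) (hG : comps G = 3) {o o' : ℕ} (ho : code G.O = o ∧ code G.X = o')
    {d t : ℤ} {Z : List ℕ} {Φ : ℕ → ℕ} {H K : List (ℕ × List ℕ)}
    (h1 : upperB o o' d t Z Φ = true) (h2 : lowerB o o' d t H K = true) :
    Hits G d t ∧ ∀ a, Hits G d a → (t : ℚ) ≤ a := by
  obtain ⟨rfl, rfl⟩ := ho
  exact ⟨hits_of_upperB G hG d t Z Φ h1, le_of_lowerB G hG d t H K h2⟩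

theorem tauTop_of (G : Grid 6) (t : ℤ) (h : Hits G 0 t ∧ ∀ a, Hits G 0 a → (t : ℚ) ≤ a) :
    IsTauTop G t := ⟨h.1, h.2⟩

theorem tauBot_of (G : Grid 6) (hG : comps G = 3) (t : ℤ)
    (h : Hits G (-5) t ∧ ∀ a, Hits G (-5) a → (t : ℚ) ≤ a) : IsTauBot G (t + 3) := by
  have e : ∀ a : ℚ, a - (((6 : ℕ) : ℚ) - comps G) = a - 3 := fun a => by
    rw [hG]
    norm_num
  constructor
  · show Hits G (1 - (6 : ℕ)) _
    rw [e, add_sub_cancel_right]
    exact h.1
  · intro a ha
    have ha' : Hits G (-5) (a - (((6 : ℕ) : ℚ) - comps G)) := ha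
    rw [e] at ha'
    linarith [h.2 _ ha']

theorem tau_G0 : IsTauTop G0 0 ∧ IsTauBot G0 (0 - 1) := by
  have h1 := tauTop_of G0 0 (least_of G0 comps_G0 code_G0 up0t low0t)
  have h2 := tauBot_of G0 comps_G0 (-4) (least_of G0 comps_G0 code_G0 up0b low0b)
  have e : ((-4 : ℤ) : ℚ) + 3 = 0 - 1 := by norm_num
  rw [e] at h2
  exact ⟨by simpa using h1, h2⟩

theorem tau_G1 : IsTauTop G1 1 ∧ IsTauBot G1 (1 - 1) := by
  have h1 := tauTop_of G1 1 (least_of G1 comps_G1 code_G1 up1t low1t)
  have h2 := tauBot_of G1 comps_G1 (-3) (least_of G1 comps_G1 code_G1 up1b low1b)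
  have e : ((-3 : ℤ) : ℚ) + 3 = 1 - 1 := by norm_num
  rw [e] at h2
  exact ⟨by simpa using h1, h2⟩

end Pool.Agent.Lib.MP_feb729_gt
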