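import Pool.Agent.Lib.MP_feb729_gt.Defs

/-!
Grid diagrams, their planar link diagrams, and the invariants `τ_top`, `τ_bot` of links computed
from the filtered grid complex over the field with two elements in which all `O` markings are
blocked (Manolescu, Ozsvath, Sarkar). The conventions are those of the book Grid homology for
knots and links by Ozsvath, Stipsicz and Szabo.
-/

namespace Pool.Agent.Lib.MP_feb729_gt

open Equiv

/-- A grid diagram of size `n`. The square in column `i` and row `O i` carries an `O`, the square
in column `i` and row `X i` carries an `X`. The square `(i, r)` has lower left corner `(i, r)`. -/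
structure Grid (n : ℕ) where
  /-- rows of the `O` markings -/
  O : Perm (Fin n)
  /-- rows of the `X` markings -/
  X : Perm (Fin n)
  /-- no square carries two markings -/
  ne : ∀ i, O i ≠ X i

variable {n c : ℕ}

/-- The vertical segment joining the markings of column `p.1` crosses the horizontal segment
joining the markings of row `p.2`. -/
def IsCrossing (G : Grid n) (p : Fin n × Fin n) : Prop :=
  min (G.O p.1) (G.X p.1) < p.2 ∧ p.2 < max (G.O p.1) (G.X p.1) ∧
    min (G.O.symm p.2) (G.X.symm p.2) < p.1 ∧ p.1 < max (G.O.symm p.2) (G.X.symm p.2)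

/-- One step along the oriented link of the grid. A position is a square and a direction,
vertical (`true`) or horizontal (`false`). Vertical segments run from `X` to `O`, horizontal
segments run from `O` to `X`, and the link turns at the markings. -/
def gridStep [NeZero n] (G : Grid n) (p : (Fin n × Fin n) × Bool) : (Fin n × Fin n) × Bool :=
  if p.2 then
    if p.1.2 = G.O p.1.1 then (p.1, false)
    else ((p.1.1, if p.1.2 < G.O p.1.1 then p.1.2 + 1 else p.1.2 - 1), true)
  else
    if p.1.2 = G.X p.1.1 then (p.1, true)
    else ((if p.1.1 < G.X.symm p.1.2 then p.1.1 + 1 else p.1.1 - 1, p.1.2), false)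

/-- `D` is the signed Gauss data of the planar link diagram of the grid `G`, in which vertical
segments pass over horizontal segments, and every component meets a crossing. -/
def IsGridOf [NeZero n] (G : Grid n) (D : Diagram c) : Prop :=
  ∃ f : Fin c → Fin n × Fin n, Function.Injective f ∧ (∀ p, IsCrossing G p ↔ ∃ a, f a = p) ∧
    (∀ i, ∃ k, IsCrossing G ((gridStep G)^[k] ((i, G.X i), true)).1) ∧
    (∀ a, D.pos a = true ↔
      (G.X (f a).1 < G.O (f a).1 ↔ G.X.symm (f a).2 < G.O.symm (f a).2)) ∧
    ∀ p, ∃ k, 0 < k ∧ (gridStep G)^[k] (f p.1, p.2) = (f (D.next p).1, (D.next p).2) ∧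
      ∀ j, 0 < j → j < k → ¬ IsCrossing G ((gridStep G)^[j] (f p.1, p.2)).1

/-- The number of components of the link of the grid. -/
def comps (G : Grid n) : ℕ := (G.O⁻¹ * G.X).cycleType.card

/-- The Maslov function `I(x,x) - I(x,O) - I(O,x) + I(O,O) + 1` of the grid state
`{(i, x i)}` relative to the markings `(i + 1/2, O i + 1/2)`, where `I(P,Q)` counts the pairs
`(p, q)` with `p` to the lower left of `q`. -/
def maslov (O x : Perm (Fin n)) : ℤ :=
  1 + ∑ i, ∑ j, ((if i < j ∧ x i < x j then 1 else 0) - (if i ≤ j ∧ x i ≤ O j then 1 else 0) -
    (if i < j ∧ O i < x j then 1 else 0) + if i < j ∧ O i < O j then 1 else 0)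

/-- The Alexander function of a grid state. -/
def alexander (G : Grid n) (x : Perm (Fin n)) : ℚ :=
  (maslov G.O x - maslov G.X x) / 2 - (n - comps G) / 2

/-- The rectangle on the torus with lower left corner `(i, x i)` and upper right corner
`(j, x j)` contains no `O` and has no point of `x` in its interior. Differences in `Fin n` are
cyclic. -/
def EmptyRect (G : Grid n) (x : Perm (Fin n)) (i j : Fin n) : Prop :=
  i ≠ j ∧ ∀ k, k - i < j - i →
    ¬ G.O k - x i < x j - x i ∧ (k ≠ i → ¬ x k - x i < x j - x i)

open Classical in
/-- The differential of the grid complex over `ZMod 2` with all `O` markings blocked. -/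
noncomputable def gridD (G : Grid n) (z : Perm (Fin n) → ZMod 2) (y : Perm (Fin n)) : ZMod 2 :=
  ∑ x, ∑ i, ∑ j, if EmptyRect G x i j ∧ y = x * swap i j then z x else 0

/-- In Maslov degree `d`, the map from the homology of the Alexander filtration level `a` to the
homology of the whole complex is not zero. -/
def Hits (G : Grid n) (d : ℤ) (a : ℚ) : Prop :=
  ∃ z : Perm (Fin n) → ZMod 2, (∀ x, z x ≠ 0 → maslov G.O x = d ∧ alexander G x ≤ a) ∧
    gridD G z = 0 ∧ ∀ y, gridD G y ≠ z

/-- `t = τ_top`: the least filtration level that carries the top class, of Maslov degree `0`. -/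
def IsTauTop (G : Grid n) (t : ℚ) : Prop := IsLeast {a | Hits G 0 a} t

/-- `t = τ_bot`: the least filtration level that carries the bottom class, of Maslov degree
`1 - n`, corrected by the shift `n - comps G` that comes from the extra markings. -/
def IsTauBot (G : Grid n) (t : ℚ) : Prop :=
  IsLeast {a | Hits G (1 - n) (a - (n - comps G))} t

end Pool.Agent.Lib.MP_feb729_gt
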