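import Pool.Agent.Lib.MP_feb729_gt.Proj

/-! The reflection of the four-ball that keeps the projection and reverses heights. -/

namespace Pool.Agent.Lib.MP_feb729_gt

open scoped ContDiff Real
open Complex

/-- The reflection as a real linear map. -/
noncomputable def reflL : Space →ₗ[ℝ] Space where
  toFun x := !₂[x 0, -starRingEnd ℂ (x 1)]
  map_add' x y := by
    ext i
    fin_cases i
    · simp
    · simp [add_comm]
  map_smul' r x := by
    ext i
    fin_cases i <;> simp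

/-- The reflection as a continuous linear map. -/
noncomputable def refl : Space →L[ℝ] Space := LinearMap.toContinuousLinearMap reflL

theorem refl_zero (x : Space) : refl x 0 = x 0 := rfl

theorem refl_one (x : Space) : refl x 1 = -starRingEnd ℂ (x 1) := rfl

theorem norm_refl (x : Space) : ‖refl x‖ = ‖x‖ := by
  rw [EuclideanSpace.norm_eq, EuclideanSpace.norm_eq, Fin.sum_univ_two, Fin.sum_univ_two,
    refl_zero, refl_one, norm_neg, Complex.norm_conj]

theorem refl_inj : Function.Injective refl := by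
  rw [injective_iff_map_eq_zero]
  intro x hx
  rw [← norm_eq_zero, ← norm_refl, hx, norm_zero]

theorem proj_refl (x : Space) : proj (refl x) = proj x := by
  simp [proj, refl_zero, refl_one]

theorem height_refl (x : Space) : height (refl x) = -height x := by
  simp [height, refl_one, neg_div]

theorem IsLink.refl {m : ℕ} {γ : Fin m → ℝ → Space} (h : IsLink γ) :
    IsLink fun i t => refl (γ i t) := by
  obtain ⟨h1, h2, h3, h4⟩ := h
  refine ⟨fun i => MP_feb729_gt.refl.contDiff.comp (h1 i), fun i t => by rw [norm_refl, h2],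
    fun i t => ?_, fun i j s u => by rw [refl_inj.eq_iff, h4]⟩
  have hd := ((h1 i).differentiable (by simp) t).hasDerivAt
  have := (MP_feb729_gt.refl.hasFDerivAt.comp_hasDerivAt t hd).deriv
  erw [this]
  exact fun h0 => h3 i t (refl_inj (h0.trans (map_zero _).symm))

theorem IsDisc.refl {φ : ℂ → Space} {κ : ℝ → Space} (h : IsDisc φ κ) :
    IsDisc (fun z => refl (φ z)) fun t => refl (κ t) := by
  obtain ⟨h1, h2, h3, h4, h5, h6⟩ := h
  refine ⟨MP_feb729_gt.refl.contDiff.comp h1, refl_inj.comp_injOn h2, fun z hz => ?_,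
    fun z hz => by rw [norm_refl]; exact h4 z hz,
    fun z hz => by simp only [norm_refl]; exact h5 z hz, fun t => congrArg _ (h6 t)⟩
  have hd := (h1.differentiable (by simp) z).hasFDerivAt
  have := (MP_feb729_gt.refl.hasFDerivAt.comp z hd).fderiv
  erw [this]
  exact refl_inj.comp (h3 z hz)

theorem IsAnnulus.refl {ψ : ℝ × ℝ → Space} {κ₁ κ₀ : ℝ → Space} (h : IsAnnulus ψ κ₁ κ₀) :
    IsAnnulus (fun p => refl (ψ p)) (fun t => refl (κ₁ t)) fun t => refl (κ₀ t) := by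
  obtain ⟨h1, h2, h3, h4, h5, h6⟩ := h
  refine ⟨MP_feb729_gt.refl.contDiff.comp h1, fun p q hp hq => by rw [refl_inj.eq_iff, h2 p q hp hq],
    fun p hp => ?_, fun p hp => by rw [norm_refl]; exact h4 p hp,
    fun t => by simp only [norm_refl]; exact h5 t, 
    fun t => ⟨congrArg _ (h6 t).1, congrArg _ (h6 t).2⟩⟩
  have hd := (h1.differentiable (by simp) p).hasFDerivAt
  have := (MP_feb729_gt.refl.hasFDerivAt.comp p hd).fderiv
  erw [this]
  exact refl_inj.comp (h3 p hp)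

/-- Exchange of the two passages at a crossing. -/
def flipP {n : ℕ} : Equiv.Perm (Fin n × Bool) where
  toFun p := (p.1, !p.2)
  invFun p := (p.1, !p.2)
  left_inv p := by simp
  right_inv p := by simp

/-- The diagram with all crossings changed. -/
def Diagram.mirror {n : ℕ} (D : Diagram n) : Diagram n where
  next := flipP * D.next * flipP
  pos c := !D.pos c

theorem IsDiagramOf.refl {n m : ℕ} {D : Diagram n} {γ : Fin m → ℝ → Space}
    (h : IsDiagramOf D γ) : IsDiagramOf D.mirror fun i t => refl (γ i t) := by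
  obtain ⟨comp, τ, h1, h2, h3, h4, h5, h6, h7⟩ := h
  have hf : ∀ p : Fin n × Bool, flipP (flipP p) = p := fun p => by simp [flipP]
  have hn : ∀ p, flipP (D.mirror.next p) = D.next (flipP p) := fun p => hf _
  refine ⟨fun p => comp (flipP p), fun p => τ (flipP p), fun i t => ?_, fun i t => ?_,
    h3.comp flipP.surjective, fun p q a b => flipP.injective (h4 _ _ a b), fun i j s u a => ?_,
    fun c => ?_, fun p => ?_⟩
  · simpa [refl_one] using h1 i t
  · simpa only [proj_refl] using h2 i t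
  · simp only [proj_refl] at a
    rcases h5 i j s u a with b | ⟨c, b, e⟩
    · exact Or.inl b
    · refine Or.inr ⟨c, !b, ?_⟩
      simpa [flipP] using e
  · obtain ⟨a1, a2, a3⟩ := h6 c
    have e1 : flipP (c, true) = (c, false) := rfl
    have e2 : flipP (c, false) = (c, true) := rfl
    simp only [proj_refl, height_refl, e1, e2]
    refine ⟨a1.symm, by linarith, ?_⟩
    generalize deriv (fun s => proj (γ (comp (c, true)) s)) (τ (c, true)) = A at a3 ⊢
    generalize deriv (fun s => proj (γ (comp (c, false)) s)) (τ (c, false)) = B at a3 ⊢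
    have e3 : (starRingEnd ℂ B * A).im = -(starRingEnd ℂ A * B).im := by
      simp
      ring
    rw [e3]
    cases hc : D.pos c <;> simp [Diagram.mirror, hc] at a3 ⊢ <;> linarith
  · obtain ⟨a1, u, a2, a3, a4⟩ := h7 (flipP p)
    simp only [hn]
    exact ⟨a1, u, a2, a3, fun q w b => a4 _ w b⟩

/-- Row order for the elimination. -/
def rowE' : Fin 12 ≃ Fin 6 × Bool where
  toFun i := ofIdx ([8, 10, 4, 9, 3, 2, 7, 1, 11, 0, 5, 6].getD i 0)
  invFun e := (![9, 7, 5, 4, 2, 10, 11, 6, 0, 3, 1, 8] : Fin 12 → Fin 12)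
    ⟨idx e % 12, Nat.mod_lt _ (by decide)⟩
  left_inv := by decide
  right_inv := by decide

/-- Column order for the elimination. -/
def colE' : Fin 12 ≃ Fin 6 × Bool where
  toFun i := ofIdx ([5, 8, 6, 7, 10, 2, 9, 4, 11, 0, 1, 3].getD i 0)
  invFun e := (![9, 10, 5, 11, 7, 0, 2, 3, 1, 6, 4, 8] : Fin 12 → Fin 12)
    ⟨idx e % 12, Nat.mod_lt _ (by decide)⟩
  left_inv := by decide
  right_inv := by decide

/-- Lower factor. -/
def matL' : Matrix (Fin 12) (Fin 12) ℤ :=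
  !![1, 0, 0, 0, 0, 0, 0, 0, 0, 0, 0, 0;
 0, 1, 0, 0, 0, 0, 0, 0, 0, 0, 0, 0;
 -2, 2, 1, 0, 0, 0, 0, 0, 0, 0, 0, 0;
 0, 0, 0, 1, 0, 0, 0, 0, 0, 0, 0, 0;
 0, 0, 0, 0, 1, 0, 0, 0, 0, 0, 0, 0;
 0, 0, 0, 0, 0, 1, 0, 0, 0, 0, 0, 0;
 0, 0, 0, -1, 0, 1, 1, 0, 0, 0, 0, 0;
 0, 0, 0, 0, 0, 0, 0, 1, 0, 0, 0, 0;
 0, 0, 0, 0, 0, 0, 0, 0, 1, 0, 0, 0;
 0, 0, 0, 0, 0, 0, 0, 0, 0, 1, 0, 0;
 -1, 1, 0, 0, -1, 0, 2, 0, -2, 2, 1, 0;
 0, 0, 1, -2, 2, 0, -2, -1, 3, -2, -2, 1]

/-- Upper factor. -/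
def matU' : Matrix (Fin 12) (Fin 12) ℤ :=
  !![1, 1, 0, 0, 0, 0, -2, 0, 0, 0, 0, 0;
 0, 1, 0, 0, 1, 0, 0, 0, -2, 0, 0, 0;
 0, 0, 1, 0, -2, 0, -4, 1, 4, 0, 0, 0;
 0, 0, 0, 1, 0, 0, -1, 0, 0, 0, 0, 0;
 0, 0, 0, 0, 1, 0, 0, 0, 0, 0, 0, -1;
 0, 0, 0, 0, 0, 1, 0, 0, 0, 1, 0, -2;
 0, 0, 0, 0, 0, 0, -1, 0, 0, -1, 0, 2;
 0, 0, 0, 0, 0, 0, 0, 1, 0, 0, -1, 0;
 0, 0, 0, 0, 0, 0, 0, 0, -1, 0, 1, 0;
 0, 0, 0, 0, 0, 0, 0, 0, 0, 1, 0, 0;
 0, 0, 0, 0, 0, 0, 0, 0, 0, 0, 2, -4;
 0, 0, 0, 0, 0, 0, 0, 0, 0, 0, 0, -2]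

theorem linkDet_mirror : linkDet D0.mirror 0 = 4 := by
  rw [linkDet, ← Int.natCast_inj, Int.natCast_natAbs,
    ← Matrix.abs_det_submatrix_equiv_equiv rowE' colE']
  have h : ∀ M : Matrix (Fin 12) (Fin 12) ℤ, (∀ i j, M i j = ∑ k, matL' i k * matU' k j) →
      |M.det| = ((4 : ℕ) : ℤ) := by
    intro M hM
    have : M = matL' * matU' := by
      ext i j
      rw [hM, Matrix.mul_apply]
    rw [this, Matrix.det_mul, Matrix.det_of_isLowerTriangular matL' (by decide +kernel),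
      Matrix.det_of_isUpperTriangular (M := matU') (by decide +kernel)]
    decide +kernel
  apply h
  simp only [Matrix.submatrix_apply, Matrix.of_apply]
  decide +kernel

end Pool.Agent.Lib.MP_feb729_gt
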