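import Pool.Agent.Lib.MP_feb729_gt.GridData
import Pool.Agent.Lib.MP_feb729_gt.Mirror

/-! The planar diagrams of the two grids. -/

namespace Pool.Agent.Lib.MP_feb729_gt

/-- Decidability of crossings. -/
def decCrossing (G : Grid 6) (p : Fin 6 × Fin 6) : Decidable (IsCrossing G p) := by
  unfold IsCrossing
  infer_instance

attribute [local instance] decCrossing

theorem isGridOf_of (G : Grid 6) (D : Diagram 6) (f : Fin 6 → Fin 6 × Fin 6)
    (h1 : ∀ a b, f a = f b → a = b) (h2 : ∀ p, IsCrossing G p ↔ ∃ a, f a = p)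
    (h3 : ∀ i, ∃ k : Fin 16, IsCrossing G ((gridStep G)^[k] ((i, G.X i), true)).1)
    (h4 : ∀ a, D.pos a = true ↔
      (G.X (f a).1 < G.O (f a).1 ↔ G.X.symm (f a).2 < G.O.symm (f a).2))
    (h5 : ∀ p, ∃ k : Fin 12, 0 < k.val ∧
      (gridStep G)^[k] (f p.1, p.2) = (f (D.next p).1, (D.next p).2) ∧
      ∀ j : Fin 12, 0 < j.val → j < k → ¬ IsCrossing G ((gridStep G)^[j] (f p.1, p.2)).1) :
    IsGridOf G D := by
  refine ⟨f, h1, h2, fun i => ?_, h4, fun p => ?_⟩
  · obtain ⟨k, hk⟩ := h3 i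
    exact ⟨k, hk⟩
  · obtain ⟨k, a, b, c⟩ := h5 p
    exact ⟨k, a, b, fun j hj hjk => c ⟨j, hjk.trans k.isLt⟩ hj hjk⟩

theorem isGridOf_G0 : IsGridOf G0 D0 :=
  isGridOf_of G0 D0 ![(2, 3), (2, 2), (3, 2), (3, 1), (4, 4), (1, 3)] (by decide +kernel)
    (by decide +kernel) (by decide +kernel) (by decide +kernel) (by decide +kernel)

theorem isGridOf_G1 : IsGridOf G1 D0.mirror :=
  isGridOf_of G1 D0.mirror ![(2, 2), (3, 2), (3, 3), (4, 3), (1, 4), (2, 1)] (by decide +kernel)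
    (by decide +kernel) (by decide +kernel) (by decide +kernel) (by decide +kernel)

end Pool.Agent.Lib.MP_feb729_gt
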