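import Pool.Agent.Lib.MP_feb729_gt.Geom
import Pool.Agent.Lib.MP_feb729_gt.Comb

/-! The projection of the link and its Gauss data. -/

namespace Pool.Agent.Lib.MP_feb729_gt

open scoped ContDiff Real
open Complex

/-- The second coordinate along a component. -/
noncomputable def ww (i : Fin 3) (t : ℝ) : ℂ := ex (ep i * t) * bb i

theorem rho_pos (i : Fin 3) (t : ℝ) : 0 < 1 - (ww i t).im := by
  have h := (le_abs_self _).trans (abs_im_le_norm (ww i t))
  rw [ww, norm_mul, norm_ex, norm_bb] at h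
  rw [ww]
  linarith

theorem link_one (i : Fin 3) (t : ℝ) : link i t 1 = ww i t := rfl

theorem proj_link (i : Fin 3) (t : ℝ) :
    proj (link i t) = ex (ep i * t) * (4 / 5) / ((1 - (ww i t).im : ℝ) : ℂ) := by
  rw [proj, link_one]
  push_cast
  rfl

theorem height_link (i : Fin 3) (t : ℝ) :
    height (link i t) = (ww i t).re / (1 - (ww i t).im) := rfl

theorem deriv_proj (i : Fin 3) (t : ℝ) : deriv (fun s => proj (link i s)) t =
    ep i * (4 / 5) * ex (ep i * t) * (I * ((1 - (ww i t).im : ℝ) : ℂ) + ((ww i t).re : ℝ)) /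
      ((1 - (ww i t).im : ℝ) : ℂ) ^ 2 := by
  have h1 := hasDerivAt_ex_ep i t
  have h2 : HasDerivAt (ww i) (ep i * (I * ex (ep i * t)) * bb i) t := h1.mul_const _
  have h3 : HasDerivAt (fun s => ((1 - (ww i s).im : ℝ) : ℂ)) ((-(ep i * (ww i t).re) : ℝ) : ℂ) t := by
    apply HasDerivAt.ofReal_comp
    have := (Complex.imCLM.hasFDerivAt.comp_hasDerivAt t h2).const_sub 1
    refine this.congr_deriv ?_
    simp [ww]
    ring
  have h4 : ((1 - (ww i t).im : ℝ) : ℂ) ≠ 0 := by exact_mod_cast (rho_pos i t).ne'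
  have h5 := ((h1.mul_const (4 / 5)).div h3 h4).deriv
  simp only [proj_link]
  erw [h5]
  congr 1
  push_cast
  ring

theorem deriv_proj_ne (i : Fin 3) (t : ℝ) : deriv (fun s => proj (link i s)) t ≠ 0 := by
  rw [deriv_proj]
  have h4 : ((1 - (ww i t).im : ℝ) : ℂ) ≠ 0 := by exact_mod_cast (rho_pos i t).ne'
  refine div_ne_zero (mul_ne_zero (mul_ne_zero (mul_ne_zero (ep_ne_zero i) (by norm_num))
    (ex_ne_zero _)) fun h => ?_) (pow_ne_zero _ h4)
  have := congrArg Complex.im h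
  simp only [add_im, mul_im, I_re, ofReal_im, mul_zero, I_im, ofReal_re, one_mul, zero_add,
    add_zero, zero_im] at this
  exact (rho_pos i t).ne' this

theorem proj_eq {i j : Fin 3} {s u : ℝ} (h : proj (link i s) = proj (link j u)) :
    ex (ep i * s) = ex (ep j * u) ∧ (ww i s).im = (ww j u).im := by
  have hi := rho_pos i s
  have hj := rho_pos j u
  rw [proj_link, proj_link] at h
  have h1 := congrArg norm h
  simp only [norm_div, norm_mul, norm_ex, Complex.norm_real, Real.norm_eq_abs, abs_of_pos hi,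
    abs_of_pos hj] at h1
  have h2 : 1 - (ww i s).im = 1 - (ww j u).im := by
    rw [div_eq_div_iff hi.ne' hj.ne'] at h1
    exact (mul_left_cancel₀ (by norm_num) h1).symm
  rw [h2, div_left_inj' (by exact_mod_cast hj.ne')] at h
  exact ⟨mul_right_cancel₀ (by norm_num) h, by linarith⟩

theorem cross {i j : Fin 3} {s u : ℝ} (h1 : ex (ep i * s) = ex (ep j * u))
    (h2 : (ww i s).im = (ww j u).im) (h3 : (ww j u).re < (ww i s).re) :
    proj (link i s) = proj (link j u) ∧ height (link j u) < height (link i s) ∧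
      0 < ep i * ep j * (starRingEnd ℂ (deriv (fun s => proj (link i s)) s) *
        deriv (fun s => proj (link j s)) u).im := by
  have hj := rho_pos j u
  refine ⟨by rw [proj_link, proj_link, h1, h2], ?_, ?_⟩
  · rw [height_link, height_link, h2]
    exact div_lt_div_of_pos_right h3 hj
  · rw [deriv_proj, deriv_proj, h1, h2]
    set ρ := 1 - (ww j u).im
    set E := ex (ep j * u)
    have hE : starRingEnd ℂ E * E = 1 := by
      rw [mul_comm, mul_conj, normSq_eq_norm_sq, norm_ex]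
      simp
    have e : starRingEnd ℂ (ep i * (4 / 5) * E * (I * (ρ : ℂ) + ((ww i s).re : ℝ)) / (ρ : ℂ) ^ 2) *
        (ep j * (4 / 5) * E * (I * (ρ : ℂ) + ((ww j u).re : ℝ)) / (ρ : ℂ) ^ 2) =
        ((ep i * ep j * (16 / 25) / ρ ^ 4 : ℝ) : ℂ) *
          ((-I * (ρ : ℂ) + ((ww i s).re : ℝ)) * (I * (ρ : ℂ) + ((ww j u).re : ℝ))) := by
      simp only [map_div₀, map_mul, map_add, map_pow, conj_ofReal, conj_I, map_ofNat]
      have : (ρ : ℂ) ≠ 0 := by exact_mod_cast hj.ne'
      push_cast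
      field_simp
      linear_combination (400 * (ep i : ℂ) * ep j * (-(I * ρ) + (ww i s).re) *
        (I * ρ + (ww j u).re)) * hE
    rw [e, im_ofReal_mul]
    have e2 : ((-I * (ρ : ℂ) + ((ww i s).re : ℝ)) * (I * (ρ : ℂ) + ((ww j u).re : ℝ))).im =
        ρ * ((ww i s).re - (ww j u).re) := by
      simp
      ring
    rw [e2]
    have e3 : (ep i * ep j) ^ 2 = 1 := by
      rcases ep_cases i with a | a <;> rcases ep_cases j with b | b <;> rw [a, b] <;> norm_num
    have : ep i * ep j * (ep i * ep j * (16 / 25) / ρ ^ 4 * (ρ * ((ww i s).re - (ww j u).re))) =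
        (ep i * ep j) ^ 2 * (16 / 25 / ρ ^ 4 * (ρ * ((ww i s).re - (ww j u).re))) := by ring
    rw [this, e3, one_mul]
    have := sub_pos.2 h3
    positivity

theorem cong_quarter (a b : ℤ) (h : (8 : ℤ) ∣ a - b) : Cong (a * (π / 4)) (b * (π / 4)) := by
  obtain ⟨k, hk⟩ := h
  refine ⟨k, ?_⟩
  have : (a : ℝ) = b + 8 * k := by exact_mod_cast (by omega : a = b + 8 * k)
  rw [this]
  ring

theorem dvd_of_cong {a b : ℤ} (h : Cong (a * (π / 4)) (b * (π / 4))) : (8 : ℤ) ∣ a - b := by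
  obtain ⟨k, hk⟩ := h
  refine ⟨k, ?_⟩
  have h1 : (a : ℝ) * (π / 4) = (b + 8 * k) * (π / 4) := by rw [hk]; ring
  have h2 := mul_right_cancel₀ (by positivity) h1
  have h3 : a = b + 8 * k := by exact_mod_cast h2
  omega

/-- Integer directions. -/
def epZ : Fin 3 → ℤ := ![1, 1, -1]

theorem ep_eq (i : Fin 3) : ep i = epZ i := by
  fin_cases i <;> simp [ep, epZ]

theorem cong_param {i : Fin 3} {s : ℝ} {a : ℤ} (h : Cong (ep i * s) (a * (π / 4))) (k : ℤ)
    (hk : (8 : ℤ) ∣ a - epZ i * k) : Cong s (k * (π / 4)) := by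
  rw [← cong_ep i]
  refine h.trans ?_
  have := cong_quarter _ _ hk
  rw [ep_eq]
  push_cast at this
  rwa [mul_assoc] at this

theorem cong_of_sin {θ : ℝ} (a : ℤ) (h : Real.sin (θ - a * (π / 4)) = 0) :
    Cong θ (a * (π / 4)) ∨ Cong θ (((a + 4 : ℤ) : ℝ) * (π / 4)) := by
  obtain ⟨k, hk⟩ := Real.sin_eq_zero_iff.1 h
  rcases Int.even_or_odd' k with ⟨m, rfl | rfl⟩
  · left
    refine ⟨m, ?_⟩
    push_cast at hk
    linarith
  · right
    refine ⟨m, ?_⟩
    push_cast at hk ⊢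
    linarith

theorem ex_re (θ : ℝ) : (ex θ).re = Real.cos θ := exp_ofReal_mul_I_re θ
theorem ex_im (θ : ℝ) : (ex θ).im = Real.sin θ := exp_ofReal_mul_I_im θ

/-- Components of the passages. -/
def cmp (p : Fin 6 × Bool) : Fin 3 :=
  ([2, 1, 0, 1, 0, 2, 1, 2, 1, 0, 2, 0] : List (Fin 3)).getD (idx p) 0

/-- Parameters of the passages in units of a quarter of `π`. -/
def kk (p : Fin 6 × Bool) : ℤ := ([0, 0, 1, 1, 3, 5, 4, 4, 5, 5, 1, 7] : List ℤ).getD (idx p) 0

/-- Lifted parameter of the following passage. -/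
def kn (p : Fin 6 × Bool) : ℤ := if kk p < kk (nxt p) then kk (nxt p) else kk (nxt p) + 8

/-- Angles of the crossings in units of a quarter of `π`. -/
def ang : Fin 6 → ℤ := ![0, 1, 3, 4, 5, 7]

theorem ex_ang (p : Fin 6 × Bool) :
    ex (ep (cmp p) * (kk p * (π / 4))) = ex (ang p.1 * (π / 4)) := by
  rw [ex_eq_iff, ep_eq, ← mul_assoc, ← Int.cast_mul]
  apply cong_quarter
  revert p
  decide

theorem ex_vals : ∃ r : ℝ, 0 < r ∧ ex (ang 0 * (π / 4)) = 1 ∧ ex (ang 1 * (π / 4)) = r + r * I ∧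
    ex (ang 2 * (π / 4)) = -r + r * I ∧ ex (ang 3 * (π / 4)) = -1 ∧
    ex (ang 4 * (π / 4)) = -r - r * I ∧ ex (ang 5 * (π / 4)) = r - r * I := by
  refine ⟨√2 / 2, by positivity, ?_, ?_, ?_, ?_, ?_, ?_⟩
  · simp [ang, ex]
  · apply Complex.ext <;> simp [ang, ex_re, ex_im]
  · have : ((ang 2 : ℤ) : ℝ) * (π / 4) = π - π / 4 := by simp [ang]; ring
    rw [this]
    apply Complex.ext <;> simp [ex_re, ex_im]
  · have : ((ang 3 : ℤ) : ℝ) * (π / 4) = π := by simp [ang]; ring
    rw [this]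
    apply Complex.ext <;> simp [ex_re, ex_im]
  · have : ((ang 4 : ℤ) : ℝ) * (π / 4) = π / 4 + π := by simp [ang]; ring
    rw [this]
    apply Complex.ext <;> simp [ex_re, ex_im]
  · have : ((ang 5 : ℤ) : ℝ) * (π / 4) = 2 * π - π / 4 := by simp [ang]; ring
    rw [this]
    apply Complex.ext <;> simp [ex_re, ex_im]

theorem double_pt {i j : Fin 3} {s u : ℝ} (h1 : ex (ep i * s) = ex (ep j * u)) (a : ℤ)
    (h : Real.sin (ep i * s - a * (π / 4)) = 0) (c c' : Fin 6) (b b' : Bool)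
    (hc : i = cmp (c, b) ∧ j = cmp (c, !b) ∧ (8 : ℤ) ∣ a - epZ i * kk (c, b) ∧
      (8 : ℤ) ∣ a - epZ j * kk (c, !b))
    (hc' : i = cmp (c', b') ∧ j = cmp (c', !b') ∧ (8 : ℤ) ∣ a + 4 - epZ i * kk (c', b') ∧
      (8 : ℤ) ∣ a + 4 - epZ j * kk (c', !b')) :
    ∃ c b, i = cmp (c, b) ∧ j = cmp (c, !b) ∧ Cong s (kk (c, b) * (π / 4)) ∧
      Cong u (kk (c, !b) * (π / 4)) := by
  have h2 := ((ex_eq_iff _ _).1 h1).symm
  rcases cong_of_sin a h with h3 | h3
  · exact ⟨c, b, hc.1, hc.2.1, cong_param h3 _ hc.2.2.1, cong_param (h2.trans h3) _ hc.2.2.2⟩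
  · exact ⟨c', b', hc'.1, hc'.2.1, cong_param h3 _ hc'.2.2.1,
      cong_param (h2.trans h3) _ hc'.2.2.2⟩

theorem isDiagramOf : IsDiagramOf D0 link := by
  refine ⟨cmp, fun p => kk p * (π / 4), fun i t => ?_, deriv_proj_ne, by decide,
    fun p q h1 h2 => ?_, fun i j s u h => ?_, fun c => ?_, fun p => ?_⟩
  · rw [link_one]
    linarith [rho_pos i t]
  · have h3 := dvd_of_cong h2
    clear h2
    revert p q
    decide
  · obtain ⟨h1, h2⟩ := proj_eq h
    by_cases hij : i = j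
    · subst hij
      exact Or.inl ⟨rfl, (cong_ep i s u).1 ((ex_eq_iff _ _).1 h1)⟩
    right
    rw [ww, ww, ← h1] at h2
    generalize hθ : ep i * s = θ at h2
    have s1 : Real.cos θ = Real.sin θ → Real.sin (θ - (1 : ℤ) * (π / 4)) = 0 := fun h => by
      simp [Real.sin_sub, h]
    have s3 : Real.cos θ = -Real.sin θ → Real.sin (θ - (-1 : ℤ) * (π / 4)) = 0 := fun h => by
      simp [Real.sin_add, h]
    have s0 : Real.sin θ = 0 → Real.sin (θ - (0 : ℤ) * (π / 4)) = 0 := fun h => by simpa using h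
    fin_cases i <;> fin_cases j <;> simp [bb, ex_re, ex_im] at hij h2
    · exact double_pt h1 1 (hθ ▸ s1 (by linarith)) 1 4 false true (by decide) (by decide)
    · exact double_pt h1 (-1) (hθ ▸ s3 (by linarith)) 5 2 true false (by decide) (by decide)
    · exact double_pt h1 1 (hθ ▸ s1 (by linarith)) 1 4 true false (by decide) (by decide)
    · exact double_pt h1 0 (hθ ▸ s0 (by linarith)) 0 3 true false (by decide) (by decide)
    · exact double_pt h1 (-1) (hθ ▸ s3 (by linarith)) 5 2 false true (by decide) (by decide)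
    · exact double_pt h1 0 (hθ ▸ s0 (by linarith)) 0 3 false true (by decide) (by decide)
  · have hs : (if D0.pos c then (1 : ℝ) else -1) = ep (cmp (c, true)) * ep (cmp (c, false)) := by
      rw [ep_eq, ep_eq, ← Int.cast_mul]
      have : ∀ c, epZ (cmp (c, true)) * epZ (cmp (c, false)) = if D0.pos c then 1 else -1 := by
        decide
      rw [this]
      split_ifs <;> simp
    rw [hs]
    obtain ⟨r, hr, e0, e1, e2, e3, e4, e5⟩ := ex_vals
    apply cross
    · rw [ex_ang, ex_ang]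
    · rw [ww, ww, ex_ang, ex_ang]
      fin_cases c
      · erw [e0]; simp [cmp, idx, bb]
      · erw [e1]; simp [cmp, idx, bb]
      · erw [e2]; simp [cmp, idx, bb]
      · erw [e3]; simp [cmp, idx, bb]
      · erw [e4]; simp [cmp, idx, bb]
      · erw [e5]; simp [cmp, idx, bb]
    · rw [ww, ww, ex_ang, ex_ang]
      fin_cases c
      · erw [e0]; simp [cmp, idx, bb]
      · erw [e1]; simp [cmp, idx, bb]; linarith
      · erw [e2]; simp [cmp, idx, bb]; linarith
      · erw [e3]; simp [cmp, idx, bb]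
      · erw [e4]; simp [cmp, idx, bb]; linarith
      · erw [e5]; simp [cmp, idx, bb]; linarith
  · have h1 : ∀ p, cmp (nxt p) = cmp p ∧ kk p < kn p ∧ (8 : ℤ) ∣ kn p - kk (nxt p) ∧
        0 ≤ kk p ∧ kk p < 8 ∧ kn p < 16 ∧ ∀ q, cmp q = cmp p →
          ¬ (kk p < kk q ∧ kk q < kn p) ∧ ¬ (kk p < kk q + 8 ∧ kk q + 8 < kn p) := by decide
    obtain ⟨a1, a2, a3, a4, a5, a6, a7⟩ := h1 p
    have hπ : 0 < π / 4 := by positivity
    refine ⟨a1, kn p * (π / 4), mul_lt_mul_of_pos_right (by exact_mod_cast a2) hπ,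
      cong_quarter _ _ a3, ?_⟩
    rintro q w hq ⟨m, rfl⟩ ⟨b1, b2⟩
    have e : (kk q : ℝ) * (π / 4) + m * (2 * π) = ((kk q + 8 * m : ℤ) : ℝ) * (π / 4) := by
      push_cast
      ring
    rw [e] at b1 b2
    have c1 : kk p < kk q + 8 * m := by exact_mod_cast lt_of_mul_lt_mul_right b1 hπ.le
    have c2 : kk q + 8 * m < kn p := by exact_mod_cast lt_of_mul_lt_mul_right b2 hπ.le
    obtain ⟨d1, d2⟩ := a7 q hq
    obtain ⟨-, -, -, d3, d4, -⟩ := h1 q
    omega

end Pool.Agent.Lib.MP_feb729_gt
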